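import Mathlib
import Pool.Agent.H.MP_5d8c24_an.B

namespace Pool.Agent.H.MP_ba7837_an

open MeasureTheory Set Filter Topology Pool.Agent.H.MP_a7cd30_an Pool.Agent.H.MP_20f905_an
  Pool.Agent.H.MP_5d8c24_an

lemma device2 (h p : ℕ) [NeZero h] [NeZero p] (b : ℕ → ZMod h) :
    ∃ E : ZMod (h * p) ≃ ZMod h × Fin p,
      av (fun t => ind ((E (t + 1)).1 ≠ (E t).1 + 1)) ≤ 1 / h ∧
      ∀ t (i : ℕ), (E t).2.val + i < p →
        (E (t + (i * h : ℕ))).1 = (E t).1 + (b ((E t).2.val + i) - b (E t).2.val) := by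
  have h0 := NeZero.pos h
  have p0 := NeZero.pos p
  let φ : ZMod (h * p) →+* ZMod h := ZMod.castHom (dvd_mul_right h p) (ZMod h)
  have φv : ∀ t, φ t = (t.val : ZMod h) := fun t => by
    rw [ZMod.natCast_val]; exact ZMod.castHom_apply t
  let P : ZMod (h * p) → Fin p := fun t =>
    ⟨t.val / h, Nat.div_lt_of_lt_mul (ZMod.val_lt t)⟩
  have inj : ∀ a : ℕ → ZMod h, Function.Injective fun t => (φ t + a (P t), P t) :=
    fun a t t' e => by
    have e2 : P t = P t' := congrArg Prod.snd e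
    have e1 : φ t + a (P t) = φ t' + a (P t') := congrArg Prod.fst e
    rw [e2, add_left_inj, φv, φv, ZMod.natCast_eq_natCast_iff'] at e1
    have e3 : t.val / h = t'.val / h := congrArg Fin.val e2
    apply ZMod.val_injective
    rw [← Nat.div_add_mod t.val h, ← Nat.div_add_mod t'.val h, e1, e3]
  let E : (ℕ → ZMod h) → ZMod (h * p) ≃ ZMod h × Fin p := fun a => Equiv.ofBijective _
    ((Fintype.bijective_iff_injective_and_card _).2 ⟨inj a, by simp⟩)
  have E1 : ∀ a t, (E a t).1 = φ t + a (P t) := fun _ _ => rfl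
  have E2 : ∀ a t, (E a t).2 = P t := fun _ _ => rfl
  refine ⟨E b, ?_, fun t i hi => ?_⟩
  · refine (av_le (g := fun t => ind ((E 0 t).1 = -1)) fun t => ?_).trans ?_
    · by_cases c : (E 0 t).1 = -1
      · rw [ind_pos c]; exact ind_le_one _
      rw [ind_neg c, ind_neg]
      rw [not_not, E1, E1, map_add, map_one, add_right_comm, add_left_inj, add_right_inj]
      rw [E1, Pi.zero_apply, add_zero, φv, ← add_eq_zero_iff_eq_neg] at c
      have d : ¬ h ∣ t.val + 1 := fun d => c (by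
        have := (ZMod.natCast_eq_zero_iff (t.val + 1) h).2 d
        exact_mod_cast this)
      have v : (t + 1).val = t.val + 1 := by
        have e : t + 1 = ((t.val + 1 : ℕ) : ZMod (h * p)) := by simp
        have := ZMod.val_lt t
        by_cases z : t.val + 1 = h * p
        · exact absurd (by rw [z]; exact dvd_mul_right _ _) d
        · rw [e, ZMod.val_cast_of_lt (by omega)]
      simp only [P, v, Nat.succ_div_of_not_dvd d]
    · rw [av_equiv (E 0) fun x => ind (x.1 = -1), av_prod]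
      simp only [av_const, av_single, ZMod.card, le_refl]
  · have z : φ (i * h : ℕ) = 0 := by rw [map_natCast, Nat.cast_mul, ZMod.natCast_self, mul_zero]
    have e : (P (t + (i * h : ℕ))).val = (P t).val + i := by
      have e : t + (i * h : ℕ) = ((t.val + i * h : ℕ) : ZMod (h * p)) := by simp
      simp only [P]
      rw [e, ZMod.val_natCast, Nat.mod_mul_right_div_self, Nat.add_mul_div_right _ _ h0]
      exact Nat.mod_eq_of_lt hi
    rw [E1, E1, E2, map_add, z, e]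
    ring

lemma refine2 {h : ℕ} [NeZero h] (e : ZMod h ≃ Fin h) (p : ℕ) [NeZero p] (b : ℕ → ZMod h) :
    ∃ (E : ZMod (h * p) ≃ ZMod h × Fin p) (e' : ZMod (h * p) ≃ Fin (h * p)),
      av (fun t => ind ((E (t + 1)).1 ≠ (E t).1 + 1)) ≤ 1 / h ∧
      (∀ t (i : ℕ), (E t).2.val + i < p →
        (E (t + (i * h : ℕ))).1 = (E t).1 + (b ((E t).2.val + i) - b (E t).2.val)) ∧
      (∀ x ∈ Ico (0 : ℝ) 1, pos e x = (E (pos e' x)).1) ∧
      dist (IE e' (Equiv.addRight 1)) (IE e (Equiv.addRight 1)) ≤ 1 / h + √(1 / h) := by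
  obtain ⟨E, h1, h2⟩ := device2 h p b
  have hl : ∀ t, (e (E t).1).val =
      ((E.trans ((e.prodCongr (Equiv.refl _)).trans finProdFinEquiv)) t).val / p := fun t =>
    (congrArg Fin.val (congrArg Prod.fst
      (finProdFinEquiv.symm_apply_apply (e (E t).1, (E t).2)))).symm
  exact ⟨E, _, h1, h2, fun x hx => pos_l hl hx, dist_IE hl h1⟩

noncomputable def rG {β : Type} (Ψ : ℝ → β) (S : G) (u v : ℕ) : ℝ :=
  mu.real {y | Ψ ((⇑S.1)^[u] y) ≠ Ψ ((⇑S.1)^[v] y)}

lemma rG_eq {β : Type} {Ψ : ℝ → β} {h : ℕ} [NeZero h] (e : ZMod h ≃ Fin h) {φ : ZMod h → β}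
    (hφ : ∀ y ∈ Ico (0 : ℝ) 1, Ψ y = φ (pos e y)) (u v : ℕ) :
    rG Ψ (IE e (Equiv.addRight 1)) u v = av fun t => ind (φ (t + u) ≠ φ (t + v)) := by
  rw [rG, ← lawp e fun t => φ (t + u) ≠ φ (t + v)]
  refine real_congr fun x hx => ?_
  obtain ⟨c1, c2, -⟩ := it_pos e u hx
  obtain ⟨c3, c4, -⟩ := it_pos e v hx
  rw [mem_ofPred_eq, mem_ofPred_eq, hφ _ c1, hφ _ c3, c2, c4]

lemma ind_tri {β : Type} (a b c : β) : ind (a ≠ c) ≤ ind (a ≠ b) + ind (b ≠ c) := by
  by_cases h : a = b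
  · subst h; linarith [ind_nonneg (a ≠ a)]
  · rw [ind_pos h]; linarith [ind_le_one (a ≠ c), ind_nonneg (b ≠ c)]

lemma avtop (q c : ℕ) [NeZero q] (hc : c ≤ q) :
    av (fun j : Fin q => ind (¬ j.val + c < q)) = c / q := by
  have := av_equiv Fin.revPerm fun j : Fin q => ind (j.val < c)
  rw [avFin q c hc] at this
  rw [← this]
  congr 1; funext j
  have := j.2
  exact congrArg ind (propext (by simp only [Fin.revPerm_apply, Fin.val_rev]; omega))

lemma avdvd (K P : ℕ) [NeZero (K * P)] :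
    av (fun j : Fin (K * P) => ind (K ∣ j.val + 1)) = 1 / K := by
  classical
  have h0 := NeZero.pos (K * P)
  have K0 := Nat.pos_of_mul_pos_right h0
  have P0 := Nat.pos_of_mul_pos_left h0
  rw [av, Fintype.card_fin, Fin.sum_univ_eq_sum_range (fun j => ind (K ∣ j + 1))]
  have := Nat.card_multiples (K * P) K
  rw [Nat.mul_div_cancel_left _ K0] at this
  rw [Finset.sum_congr rfl (g := fun j => if K ∣ j + 1 then (1 : ℝ) else 0) fun j _ => by
    by_cases c : K ∣ j + 1 <;> simp [ind, c], Finset.sum_boole, this]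
  push_cast; field_simp

lemma dev {β β' : Type} {Ψ : ℝ → β} {Ψ' : ℝ → β'} {a : ℕ} [NeZero a] {f : Fin a → β}
    {f' : Fin a → β'} (hf : ∀ y ∈ Ico (0 : ℝ) 1, Ψ y = f (fin a y))
    (hf' : ∀ y ∈ Ico (0 : ℝ) 1, Ψ' y = f' (fin a y)) {L w θ : ℕ} (L0 : 0 < L) {ε1 ε2 ε' : ℝ}
    (ε0 : 0 < ε') {O : Set G} (hO : IsOpen O) (hn : O.Nonempty)
    (h : ∀ S ∈ O, rG Ψ S w 0 < ε1 ∧ rG Ψ S (L * w) θ < ε2) :
    ∃ S ∈ O, ∃ K w', 0 < K ∧ rG Ψ' S w' 0 < ε' ∧ rG Ψ' S (L * K * w') θ < ε' ∧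
      (∀ i ≤ L * K, rG Ψ S (i * w') (i / K * w) < 3 * (ε1 + ε2)) ∧
      rG Ψ S (K * w') w < 2 * ε2 := by
  obtain ⟨T, hT⟩ := hn
  have e2 : 0 < ε2 := measureReal_nonneg.trans_lt (h T hT).2
  have e1 : 0 < ε1 := measureReal_nonneg.trans_lt (h T hT).1
  obtain ⟨r, r0, hr⟩ := Metric.isOpen_iff.1 hO T hT
  obtain ⟨η, η0, η1, η2⟩ := small_h (half_pos r0)
  obtain ⟨ζ, ζ0, ζ1, ζ2⟩ : ∃ ζ : ℝ, 0 < ζ ∧ 2 * ζ < ε' ∧ 2 * ζ < ε2 :=
    ⟨min ε' ε2 / 3, by positivity, by linarith [min_le_left ε' ε2, lt_min ε0 e2],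
      by linarith [min_le_right ε' ε2, lt_min ε0 e2]⟩
  obtain ⟨K, hK⟩ := exists_nat_gt (1 / ζ)
  have K1 : (0 : ℝ) < K := lt_trans (by positivity) hK
  have K0 : 0 < K := by exact_mod_cast K1
  have K2 : 1 / (K : ℝ) ≤ ζ := by
    rw [div_lt_iff₀ ζ0] at hK
    rw [div_le_iff₀ K1]; linarith
  obtain ⟨M, _, e, -, h1, h2⟩ := dens T a (ε := min η (ζ / (2 * (L * w + θ : ℕ) + 1)))
    (by positivity)
  simp only [le_min_iff, lt_min_iff] at h1 h2
  have : NeZero (K * (L * K)) := ⟨by positivity⟩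
  set ρ : ZMod (a * M) := (L * w : ℕ) - θ with hρ
  obtain ⟨E, e', k1, k2, k3, k4⟩ := refine2 e (K * (L * K))
    fun j => ((j / K : ℕ) : ZMod (a * M)) * w - ((j / (L * K) : ℕ) : ZMod (a * M)) * ρ
  have m0 : IE e (Equiv.addRight 1) ∈ O := hr (Metric.mem_ball.2 (by linarith [h2.1]))
  obtain ⟨b1, b2⟩ := h _ m0
  let φ : ZMod (a * M) → β := fun u => f (e u).divNat
  let φ' : ZMod (a * M) → β' := fun u => f' (e u).divNat
  have q1 : ∀ y ∈ Ico (0 : ℝ) 1, Ψ y = φ (pos e y) := fun y hy => by rw [hf y hy, fin_pos e hy]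
  have q2 : ∀ y ∈ Ico (0 : ℝ) 1, Ψ y = φ (E (pos e' y)).1 := fun y hy => by rw [q1 y hy, k3 y hy]
  have q3 : ∀ y ∈ Ico (0 : ℝ) 1, Ψ' y = φ' (E (pos e' y)).1 := fun y hy => by
    rw [hf' y hy, fin_pos e hy, k3 y hy]
  rw [rG_eq e q1] at b1 b2
  have s1 : ∀ c : ZMod (a * M), av (fun t => ind (φ ((E t).1 + c + w) ≠ φ ((E t).1 + c))) < ε1 := by
    intro c
    rw [av_equiv E fun x => ind (φ (x.1 + c + w) ≠ φ (x.1 + c)), av_prod]
    simp only [av_const]
    rw [av_shift c fun t => ind (φ (t + w) ≠ φ t)]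
    simpa using b1
  have s2 : ∀ c : ZMod (a * M), av (fun t => ind (φ ((E t).1 + c - ρ) ≠ φ ((E t).1 + c))) < ε2 := by
    intro c
    rw [av_equiv E fun x => ind (φ (x.1 + c - ρ) ≠ φ (x.1 + c)), av_prod]
    simp only [av_const]
    rw [← av_shift (c - ((L * w : ℕ) : ZMod (a * M)))] at b2
    refine lt_of_eq_of_lt (congrArg av (funext fun t => congrArg ind (propext ?_))) b2
    rw [ne_comm, hρ]
    congr! 2 <;> ring
  have g1 : av (fun t => ind (¬ Gd (fun t => (E t).1) (L * w + θ) t)) ≤ ζ := by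
    refine (gd_bound (l := fun t => (E t).1) k1 _).trans ?_
    have := mul_le_mul_of_nonneg_left h1.2 (show (0 : ℝ) ≤ 2 * (L * w + θ : ℕ) + 1 by positivity)
    rw [mul_div_cancel₀ _ (by positivity)] at this
    have : (0 : ℝ) ≤ 1 / ((a * M : ℕ) : ℝ) := by positivity
    linarith
  have g2 : av (fun t => ind (¬ (E t).2.val + L * K < K * (L * K))) ≤ ζ := by
    rw [av_equiv E fun x => ind (¬ x.2.val + L * K < K * (L * K)), av_prod]
    simp only [avtop _ _ (Nat.le_mul_of_pos_left (L * K) K0), av_const]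
    refine le_trans (le_of_eq ?_) K2
    push_cast; field_simp
  have g3 : av (fun t => ind (K ∣ (E t).2.val + 1)) ≤ ζ := by
    rw [av_equiv E fun x => ind (K ∣ x.2.val + 1), av_prod]
    simp only [avdvd, av_const]
    exact K2
  have gd : ∀ t, Gd (fun t => (E t).1) (L * w + θ) t → ∀ v : ℕ, v ≤ L * w + θ →
      (E (t + v)).1 = (E t).1 + v := fun t ht v hv => by
    have := ht v (by rw [abs_of_nonneg (by positivity)]; exact_mod_cast hv)
    simpa using this
  have bad : ∀ {γ : Type} (x y : γ) t (z : ℝ), 0 ≤ z →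
      (Gd (fun t => (E t).1) (L * w + θ) t → (E t).2.val + L * K < K * (L * K) → ind (x ≠ y) ≤ z) →
      ind (x ≠ y) ≤ ind (¬ Gd (fun t => (E t).1) (L * w + θ) t) +
        ind (¬ (E t).2.val + L * K < K * (L * K)) + z := fun x y t z z0 H => by
    have n1 := ind_nonneg (¬ Gd (fun t => (E t).1) (L * w + θ) t)
    have n2 := ind_nonneg (¬ (E t).2.val + L * K < K * (L * K))
    have n3 := ind_le_one (x ≠ y)
    by_cases c1 : Gd (fun t => (E t).1) (L * w + θ) t
    swap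
    · rw [ind_pos c1]; linarith
    by_cases c2 : (E t).2.val + L * K < K * (L * K)
    swap
    · rw [ind_pos c2]; linarith
    linarith [H c1 c2]
  have d2 : ∀ j i : ℕ, i ≤ L * K →
      (j + i) / (L * K) = j / (L * K) ∨ (j + i) / (L * K) = j / (L * K) + 1 := fun j i hi => by
    have a1 : j / (L * K) ≤ (j + i) / (L * K) := Nat.div_le_div_right (Nat.le_add_right _ _)
    have a2 : (j + i) / (L * K) ≤ j / (L * K) + 1 := by
      rw [← Nat.add_div_right _ (by positivity)]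
      exact Nat.div_le_div_right (Nat.add_le_add_left hi _)
    omega
  refine ⟨IE e' (Equiv.addRight 1), hr ?_, K, a * M, K0, ?_, ?_, fun i hi => ?_, ?_⟩
  · have := η2 _ (by positivity) h1.1
    have := dist_triangle (IE e' (Equiv.addRight 1)) (IE e (Equiv.addRight 1)) T
    rw [Metric.mem_ball]
    linarith [h2.1]
  · rw [rG_eq e' (φ := fun t => φ' (E t).1) q3]
    refine (av_le (g := fun t => ind (K ∣ (E t).2.val + 1)) fun t => ?_).trans_lt (by linarith)
    by_cases c : K ∣ (E t).2.val + 1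
    · rw [ind_pos c]; exact ind_le_one _
    have := k2 t 1 (lt_of_le_of_ne (E t).2.2 fun z => c (by
      rw [show (E t).2.val + 1 = K * (L * K) from z]; exact dvd_mul_right _ _))
    rw [one_mul, Nat.succ_div_of_not_dvd c, Nat.succ_div_of_not_dvd
      fun z => c ((dvd_mul_left K L).trans z), sub_self, add_zero] at this
    rw [this, Nat.cast_zero, add_zero, ind_neg (not_not.2 rfl)]
    exact ind_nonneg _
  · rw [rG_eq e' (φ := fun t => φ' (E t).1) q3]
    refine (av_le fun t => bad _ _ t 0 le_rfl fun c1 c2 => (ind_neg (not_not.2 ?_)).le).trans_lt ?_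
    · rw [k2 t _ c2, gd t c1 θ (Nat.le_add_left _ _), Nat.add_div_right _ (by positivity),
        Nat.add_mul_div_right _ _ K0, hρ]
      congr 2; push_cast; ring
    · rw [av_add, av_add, av_const]; linarith
  · rw [rG_eq e' (φ := fun t => φ (E t).1) q2]
    refine (av_le fun t => bad _ _ t
      (ind (φ ((E t).1 + (i / K * w : ℕ) + w) ≠ φ ((E t).1 + (i / K * w : ℕ))) +
       ind (φ ((E t).1 + (i / K * w : ℕ) - ρ) ≠ φ ((E t).1 + (i / K * w : ℕ))) +
       ind (φ ((E t).1 + ((i / K * w : ℕ) + w) - ρ) ≠ φ ((E t).1 + ((i / K * w : ℕ) + w))))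
       (add_nonneg (add_nonneg (ind_nonneg _) (ind_nonneg _)) (ind_nonneg _))
       fun c1 c2 => ?_).trans_lt ?_
    · have n1 := ind_nonneg (φ ((E t).1 + (i / K * w : ℕ) + w) ≠ φ ((E t).1 + (i / K * w : ℕ)))
      have n2 := ind_nonneg (φ ((E t).1 + (i / K * w : ℕ) - ρ) ≠ φ ((E t).1 + (i / K * w : ℕ)))
      have n3 := ind_nonneg (φ ((E t).1 + ((i / K * w : ℕ) + w) - ρ) ≠
        φ ((E t).1 + ((i / K * w : ℕ) + w)))
      rw [k2 t i (by omega), gd t c1 _ ((Nat.mul_le_mul_right w (Nat.div_le_of_le_mul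
        (by rwa [mul_comm] at hi))).trans (Nat.le_add_right _ _)), Nat.add_div K0]
      generalize (E t).1 = u at *
      have x0 : ∀ x y : ZMod (a * M), x = y → ∀ z, ind (φ x ≠ z) = ind (φ y ≠ z) :=
        fun x y q z => by rw [q]
      rcases d2 (E t).2.val i hi with q | q <;> rw [q] <;> split_ifs
      · rw [x0 _ (u + (i / K * w : ℕ) + w) (by push_cast; ring)]; linarith
      · rw [x0 _ (u + (i / K * w : ℕ)) (by push_cast; ring), ind_neg (not_not.2 rfl)]; linarith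
      · rw [x0 _ (u + ((i / K * w : ℕ) + w) - ρ) (by push_cast; ring)]
        have := ind_tri (φ (u + ((i / K * w : ℕ) + w) - ρ)) (φ (u + ((i / K * w : ℕ) + w)))
          (φ (u + (i / K * w : ℕ)))
        rw [add_assoc u] at n1 ⊢
        linarith
      · rw [x0 _ (u + (i / K * w : ℕ) - ρ) (by push_cast; ring)]; linarith
    · rw [av_add, av_add, av_add, av_add]
      linarith [s1 (i / K * w : ℕ), s2 (i / K * w : ℕ), s2 ((i / K * w : ℕ) + w)]
  · rw [rG_eq e' (φ := fun t => φ (E t).1) q2]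
    have hi : K ≤ L * K := Nat.le_mul_of_pos_left _ L0
    refine (av_le fun t => bad _ _ t (ind (φ ((E t).1 + w - ρ) ≠ φ ((E t).1 + w)))
       (ind_nonneg _) fun c1 c2 => ?_).trans_lt ?_
    · rw [k2 t K (by omega), gd t c1 _ ((Nat.le_mul_of_pos_left w L0).trans (Nat.le_add_right _ _)),
        Nat.add_div_right _ K0]
      generalize (E t).1 = u at *
      have x0 : ∀ x y : ZMod (a * M), x = y → ∀ z, ind (φ x ≠ z) = ind (φ y ≠ z) :=
        fun x y q z => by rw [q]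
      rcases d2 (E t).2.val K hi with q | q <;> rw [q]
      · rw [x0 _ (u + w) (by push_cast; ring), ind_neg (not_not.2 rfl)]; exact ind_nonneg _
      · rw [x0 _ (u + w - ρ) (by push_cast; ring)]
    · rw [av_add, av_add]
      linarith [s2 w]

lemma rig {β : Type} (Ψ : ℝ → β) {O : Set G} (hO : IsOpen O) (hn : O.Nonempty) :
    ∃ S ∈ O, ∃ p, 0 < p ∧ rG Ψ S p 0 = 0 := by
  obtain ⟨T, hT⟩ := hn
  obtain ⟨r, r0, hr⟩ := Metric.isOpen_iff.1 hO T hT
  obtain ⟨M, _, e, -, -, h⟩ := dens T 1 r0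
  refine ⟨_, hr h, 1 * M, NeZero.pos _, ?_⟩
  rw [rG, real_congr (T := ∅)]
  · simp
  intro x hx
  obtain ⟨-, a2, a3⟩ := it_pos e (1 * M) hx
  rw [ZMod.natCast_self, add_zero] at a2
  have a4 := e.symm.injective a2
  rw [a4, sub_left_inj] at a3
  simp only [mem_ofPred_eq, a3, Function.iterate_zero, id, ne_eq, not_true, mem_empty_iff_false]

end Pool.Agent.H.MP_ba7837_an
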