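import Mathlib
import Pool.Agent.H.MP_5d8c24_an.D

namespace Pool.Agent.H.MP_ba7837_an

open MeasureTheory Set Filter Topology Pool.Agent.H.MP_5d8c24_an

abbrev GI := {e : ℝ ≃ᵐ ℝ // MeasurePreserving (⇑e) volume volume}

instance : Mul GI := ⟨fun S T => ⟨T.1.trans S.1, S.2.comp T.2⟩⟩
instance : One GI := ⟨⟨MeasurableEquiv.refl ℝ, MeasurePreserving.id _⟩⟩
instance : Inv GI := ⟨fun S => ⟨S.1.symm, S.2.symm S.1⟩⟩
instance : Group GI := Group.ofLeftAxioms (fun _ _ _ => rfl) (fun _ => rfl)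
  fun S => Subtype.ext (MeasurableEquiv.ext (funext S.1.symm_apply_apply))

lemma mul_ap (S T : GI) (x : ℝ) : (S * T).1 x = S.1 (T.1 x) := rfl
lemma one_ap (x : ℝ) : (1 : GI).1 x = x := rfl
lemma pow_ap (T : GI) (n : ℕ) : ⇑(T ^ n).1 = (⇑T.1)^[n] := by
  induction n with
  | zero => rw [pow_zero]; rfl
  | succ n ih => rw [pow_succ, Function.iterate_succ, ← ih]; rfl

noncomputable instance tI : TopologicalSpace GI :=
  (⨅ (A : Set ℝ) (B : Set ℝ) (_ : MeasurableSet A) (_ : MeasurableSet B) (_ : volume A ≠ ⊤)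
    (_ : volume B ≠ ⊤),
    TopologicalSpace.induced (fun T : GI => volume (symmDiff (T.1 '' A) B)) inferInstance) ⊓
  ⨅ (A : Set ℝ) (B : Set ℝ) (_ : MeasurableSet A) (_ : MeasurableSet B) (_ : volume A ≠ ⊤)
    (_ : volume B ≠ ⊤),
    TopologicalSpace.induced (fun T : GI => volume (symmDiff (T.1 ⁻¹' A) B)) inferInstance

def Cv {ι : Type} (l : Filter ι) (F : ι → GI) (S : GI) : Prop :=
  ∀ A, MeasurableSet A → volume A ≠ ⊤ →
    Tendsto (fun i => volume (symmDiff ((F i).1 ⁻¹' A) (S.1 ⁻¹' A))) l (𝓝 0)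

section
variable {ι : Type} {l : Filter ι} {F F' : ι → GI} {S S' : GI}

lemma pre_fin (S : GI) {A : Set ℝ} (hA : MeasurableSet A) (h : volume A ≠ ⊤) :
    volume (S.1 ⁻¹' A) ≠ ⊤ := by rwa [S.2.measure_preimage hA.nullMeasurableSet]

lemma Cv.inv (h : Cv l F S) : Cv l (fun i => (F i)⁻¹) S⁻¹ := by
  intro A hA hA'
  have m := (S⁻¹).1.measurable hA
  refine (h _ m (pre_fin _ hA hA')).congr fun i => ?_
  rw [← (F i).2.measure_preimage (((F i)⁻¹.1.measurable hA).symmDiff m).nullMeasurableSet,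
    preimage_symmDiff, symmDiff_comm]
  have e : ∀ R : GI, R.1 ⁻¹' (R⁻¹.1 ⁻¹' A) = A := fun R => by
    ext x; exact iff_of_eq (congrArg (· ∈ A) (R.1.symm_apply_apply x))
  rw [e, e]

lemma Cv.mul (h : Cv l F S) (h' : Cv l F' S') : Cv l (fun i => F i * F' i) (S * S') := by
  intro B hB hB'
  have a := (h B hB hB').add (h' _ (S.1.measurable hB) (pre_fin _ hB hB'))
  rw [add_zero] at a
  refine tendsto_of_tendsto_of_tendsto_of_le_of_le tendsto_const_nhds a (fun _ => zero_le)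
    fun m => ?_
  refine (measure_symmDiff_le _ ((F' m).1 ⁻¹' (S.1 ⁻¹' B)) _).trans (add_le_add (le_of_eq ?_) le_rfl)
  rw [← (F' m).2.measure_preimage
    (((F m).1.measurable hB).symmDiff (S.1.measurable hB)).nullMeasurableSet, preimage_symmDiff]
  rfl

lemma sd_tend {X : ι → Set ℝ} {Y B : Set ℝ}
    (h : Tendsto (fun i => volume (symmDiff (X i) Y)) l (𝓝 0)) (hY : volume (symmDiff Y B) ≠ ⊤) :
    Tendsto (fun i => volume (symmDiff (X i) B)) l (𝓝 (volume (symmDiff Y B))) := by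
  have a := h.add_const (volume (symmDiff Y B))
  have b := ENNReal.Tendsto.sub (tendsto_const_nhds (x := volume (symmDiff Y B))) h (Or.inl hY)
  rw [zero_add] at a
  rw [tsub_zero] at b
  refine tendsto_of_tendsto_of_tendsto_of_le_of_le b a (fun i => tsub_le_iff_left.2 ?_)
    fun i => measure_symmDiff_le _ _ _
  rw [symmDiff_comm (X i)]
  exact measure_symmDiff_le _ _ _

lemma tend_iff : Tendsto F l (𝓝 S) ↔ Cv l F S := by
  have e (a b : TopologicalSpace GI) (c : tI = a ⊓ b) : Tendsto F l (@nhds GI tI S) ↔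
      Tendsto F l (@nhds GI a S) ∧ Tendsto F l (@nhds GI b S) := by
    rw [← tendsto_inf, ← @_root_.nhds_inf GI a b S, ← c]
  have e' := e _ _ rfl
  rw [e']
  simp only [nhds_iInf, nhds_induced, tendsto_iInf, tendsto_comap_iff]
  refine ⟨fun h A hA hA' => ?_, fun h => ⟨fun A B hA _ hA' hB' => ?_, fun A B hA _ hA' hB' => ?_⟩⟩
  · simpa [Function.comp_def] using h.2 A _ hA (S.1.measurable hA) hA' (pre_fin _ hA hA')
  · simp only [Function.comp_def, MeasurableEquiv.image_eq_preimage_symm]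
    exact sd_tend (h.inv A hA hA') (measure_symmDiff_ne_top (pre_fin S⁻¹ hA hA') hB')
  · exact sd_tend (h A hA hA') (measure_symmDiff_ne_top (pre_fin S hA hA') hB')

end

instance : IsTopologicalGroup GI where
  continuous_mul := continuous_iff_continuousAt.2 fun p => tend_iff.2
    ((tend_iff.1 (continuous_fst.tendsto p)).mul (tend_iff.1 (continuous_snd.tendsto p)))
  continuous_inv := continuous_iff_continuousAt.2 fun _ => tend_iff.2 (tend_iff.1 tendsto_id).inv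

lemma ku {ι : Type} {l : Filter ι} {F : ι → GI} {f : ℝ → ℝ}
    (hf : ∀ A, volume (f ⁻¹' A) ≤ volume A)
    (h : ∀ K U, IsCompact K → IsOpen U → K ⊆ U →
      Tendsto (fun i => volume (f ⁻¹' K \ (F i).1 ⁻¹' U)) l (𝓝 0))
    {A : Set ℝ} (hA : MeasurableSet A) (hA' : volume A ≠ ⊤) :
    Tendsto (fun i => volume (f ⁻¹' A \ (F i).1 ⁻¹' A)) l (𝓝 0) := by
  refine ENNReal.tendsto_nhds_zero.2 fun ε ε0 => ?_
  have e0 : ε / 3 ≠ 0 := (ENNReal.div_pos ε0.ne' (by simp)).ne'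
  obtain ⟨K, k1, k2, k3⟩ := hA.exists_isCompact_sdiff_lt hA' e0
  obtain ⟨U, u1, u2, -, u3⟩ := hA.exists_isOpen_sdiff_lt hA' e0
  filter_upwards [ENNReal.tendsto_nhds_zero.1 (h K U k2 u2 (k1.trans u1)) _
    (pos_iff_ne_zero.2 e0)] with i hi
  refine (measure_mono (t := (f ⁻¹' (A \ K) ∪ (f ⁻¹' K \ (F i).1 ⁻¹' U)) ∪ (F i).1 ⁻¹' (U \ A))
    fun x hx => ?_).trans ((measure_union_le _ _).trans ((add_le_add ((measure_union_le _ _).trans
      (add_le_add ((hf _).trans k3.le) hi)) (((F i).2.measure_preimage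
        (u2.measurableSet.diff hA).nullMeasurableSet).trans_le u3.le)).trans
          (ENNReal.add_thirds ε).le))
  simp only [Set.mem_sdiff, mem_preimage, mem_union] at hx ⊢
  tauto

lemma cv_of {ι : Type} {l : Filter ι} {F : ι → GI} {S : GI}
    (h : ∀ A, MeasurableSet A → volume A ≠ ⊤ →
      Tendsto (fun i => volume (S.1 ⁻¹' A \ (F i).1 ⁻¹' A)) l (𝓝 0)) : Tendsto F l (𝓝 S) := by
  refine tend_iff.2 fun A hA hA' => ?_
  have := (h A hA hA').add (h A hA hA')
  rw [add_zero] at this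
  refine tendsto_of_tendsto_of_tendsto_of_le_of_le tendsto_const_nhds this (fun _ => zero_le)
    fun i => (measure_union_le _ _).trans (add_le_add (le_of_eq ?_) le_rfl)
  exact measure_sdiff_symm ((F i).1.measurable hA).nullMeasurableSet
    (S.1.measurable hA).nullMeasurableSet (by
      rw [(F i).2.measure_preimage hA.nullMeasurableSet, S.2.measure_preimage hA.nullMeasurableSet])
    (ne_top_of_le_ne_top (pre_fin S hA hA') (measure_mono inter_subset_right))

lemma sub_mp (S : GI) (A : Set ℝ) : volume (S.1 ⁻¹' A) ≤ volume A :=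
  (S.2.measure_preimage_equiv A).le

lemma lim_sub {F : ℕ → GI} {f : ℝ → ℝ} (hm : Measurable f)
    (h : ∀ᵐ x, Tendsto (fun n => (F n).1 x) atTop (𝓝 (f x))) :
    (∀ A, volume (f ⁻¹' A) ≤ volume A) ∧ ∀ A, MeasurableSet A → volume A ≠ ⊤ →
      Tendsto (fun i => volume (f ⁻¹' A \ (F i).1 ⁻¹' A)) atTop (𝓝 0) := by
  have a : ∀ A, volume (f ⁻¹' A) ≤ volume A := fun A => by
    rw [A.measure_eq_iInf_isOpen]
    refine le_iInf fun U => le_iInf fun h1 => le_iInf fun h2 => ?_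
    refine (measure_mono_ae (t := ⋃ N, ⋂ n ≥ N, (F n).1 ⁻¹' U) ?_).trans ?_
    · filter_upwards [h] with x hx hxA
      obtain ⟨N, hN⟩ := eventually_atTop.1 (hx.eventually (h2.mem_nhds (h1 hxA)))
      exact mem_iUnion.2 ⟨N, mem_iInter₂.2 hN⟩
    · rw [Monotone.measure_iUnion fun N N' hN => biInter_subset_biInter_left
        (s' := Ici N') (s := Ici N) (Ici_subset_Ici.2 hN)]
      exact iSup_le fun N => (measure_mono (biInter_subset_of_mem (s := Ici N) self_mem_Ici)).trans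
        (sub_mp _ _)
  refine ⟨a, fun A hA hA' => ku a (fun K U hK hU hKU => ?_) hA hA'⟩
  have := tendsto_measure_of_ae_tendsto_indicator (μ := volume) atTop MeasurableSet.empty
    (fun i => (hm hK.measurableSet).diff ((F i).1.measurable hU.measurableSet))
    (hm hK.measurableSet) (ne_top_of_le_ne_top hK.measure_lt_top.ne (a K))
    (Eventually.of_forall fun _ => sdiff_subset) (by
      filter_upwards [h] with x hx
      by_cases c : f x ∈ K
      · filter_upwards [hx.eventually (hU.mem_nhds (hKU c))] with i hi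
        exact ⟨fun q => q.2 hi, False.elim⟩
      · simp [c])
  simpa using this

lemma lim_inv {F : ℕ → GI} {f g : ℝ → ℝ} (hf : Measurable f) (hg : Measurable g)
    (h : ∀ᵐ x, Tendsto (fun n => (F n).1 x) atTop (𝓝 (f x)))
    (h' : ∀ᵐ x, Tendsto (fun n => (F n)⁻¹.1 x) atTop (𝓝 (g x))) : ∀ᵐ x, g (f x) = x := by
  obtain ⟨a1, a2⟩ := lim_sub hf h
  obtain ⟨b1, b2⟩ := lim_sub hg h'
  have c : ∀ p q : ℚ, ∀ᵐ x, g (f x) ∈ Ioo (p : ℝ) q → x ∈ Ioo (p : ℝ) q := fun p q => by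
    have m : MeasurableSet (Ioo (p : ℝ) q) := measurableSet_Ioo
    have := (a2 _ (hg m) (ne_top_of_le_ne_top measure_Ioo_lt_top.ne (b1 _))).add
      (b2 _ m measure_Ioo_lt_top.ne)
    rw [add_zero] at this
    refine le_antisymm (ge_of_tendsto' this fun n => (measure_mono (t := (f ⁻¹' (g ⁻¹' Ioo (p : ℝ) q) \
      (F n).1 ⁻¹' (g ⁻¹' Ioo (p : ℝ) q)) ∪ (F n).1 ⁻¹' (g ⁻¹' Ioo (p : ℝ) q \
        (F n)⁻¹.1 ⁻¹' Ioo (p : ℝ) q)) fun x hx => ?_).trans ((measure_union_le _ _).trans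
          (add_le_add le_rfl (sub_mp _ _)))) zero_le
    have e : (F n)⁻¹.1 ((F n).1 x) = x := (F n).1.symm_apply_apply x
    simp only [mem_compl_iff, mem_ofPred_eq, mem_union, Set.mem_sdiff, mem_preimage, e] at hx ⊢
    tauto
  filter_upwards [ae_all_iff.2 fun p => ae_all_iff.2 fun q => c p q] with x hx
  rcases lt_trichotomy (g (f x)) x with l | l | l
  · obtain ⟨q, q1, q2⟩ := exists_rat_btwn l
    obtain ⟨p, p1⟩ := exists_rat_lt (g (f x))
    exact absurd (hx p q ⟨p1, q1⟩).2 q2.not_gt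
  · exact l
  · obtain ⟨p, p1, p2⟩ := exists_rat_btwn l
    obtain ⟨q, q1⟩ := exists_rat_gt (g (f x))
    exact absurd (hx p q ⟨p2, q1⟩).1 p1.not_gt

lemma lim0 {F : ℕ → GI} (h : ∀ᵐ x, ∃ y, Tendsto (fun n => (F n).1 x) atTop (𝓝 y))
    (h' : ∀ᵐ x, ∃ y, Tendsto (fun n => (F n)⁻¹.1 x) atTop (𝓝 y)) :
    ∃ S, Tendsto F atTop (𝓝 S) := by
  obtain ⟨f, hf, h⟩ := measurable_limit_of_tendsto_metrizable_ae
    (fun n => (F n).1.measurable.aemeasurable) h
  obtain ⟨g, hg, h'⟩ := measurable_limit_of_tendsto_metrizable_ae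
    (fun n => (F n)⁻¹.1.measurable.aemeasurable) h'
  have gf := lim_inv hf hg h h'
  have fg := lim_inv (F := fun n => (F n)⁻¹) hg hf h' h
  obtain ⟨a1, a2⟩ := lim_sub hf h
  have mp : MeasurePreserving f volume volume := ⟨hf, Measure.ext fun A hA => by
    rw [Measure.map_apply hf hA]
    refine le_antisymm (a1 A) (le_trans (measure_mono_ae ?_) ((lim_sub hg h').1 _))
    filter_upwards [fg] with x hx hxA
    show f (g x) ∈ A
    rwa [hx]⟩
  obtain ⟨S, hS⟩ := realize' mp hg gf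
  refine ⟨⟨S.1, S.2⟩, cv_of fun A hA hA' => (a2 A hA hA').congr fun i => measure_congr ?_⟩
  refine Filter.EventuallyEq.diff ?_ (ae_eq_refl _)
  filter_upwards [hS] with x hx
  show (f x ∈ A) = (S.1 x ∈ A)
  rw [hx]

noncomputable def chi (k : ℕ) (z : ℤ) : Option ℤ := if -4 ^ k ≤ z ∧ z < 4 ^ k then some z else none

noncomputable def ps (k : ℕ) (x : ℝ) : Option ℤ := chi k ⌊2 ^ k * x⌋

def W (k : ℕ) : Set ℝ := Ico (-2 ^ k) (2 ^ k)

lemma ps_none (k : ℕ) (x : ℝ) : ps k x ≠ none ↔ x ∈ W k := by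
  have e : (4 : ℝ) ^ k = 2 ^ k * 2 ^ k := by rw [← mul_pow]; norm_num
  have p : (0 : ℝ) < 2 ^ k := by positivity
  have : (-4 ^ k ≤ ⌊2 ^ k * x⌋ ∧ ⌊2 ^ k * x⌋ < 4 ^ k) ↔ x ∈ W k := by
    rw [Int.le_floor, Int.floor_lt, W, mem_Ico]
    push_cast
    rw [e, ← mul_neg, mul_le_mul_iff_right₀ p, mul_lt_mul_iff_right₀ p]
  rw [← this, ps, chi]
  split_ifs with c <;> simp [c]

lemma ps_close {k : ℕ} {x y : ℝ} (hx : x ∈ W k) (h : ps k y = ps k x) :
    y ∈ W k ∧ dist x y ≤ 1 / 2 ^ k := by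
  have a := (ps_none k x).2 hx
  refine ⟨(ps_none k y).1 (h ▸ a), ?_⟩
  have b : ⌊2 ^ k * y⌋ = ⌊2 ^ k * x⌋ := by
    simp only [ps, chi] at a h
    split_ifs at a h with c d
    · exact Option.some.inj h
    · exact absurd rfl a
  have := Int.abs_sub_lt_one_of_floor_eq_floor b
  rw [← mul_sub, abs_mul, abs_of_pos (by positivity)] at this
  rw [Real.dist_eq, abs_sub_comm, le_div_iff₀' (by positivity)]
  exact this.le

lemma fl_succ (k : ℕ) (x : ℝ) : ⌊2 ^ k * x⌋ = ⌊2 ^ (k + 1) * x⌋ / 2 := by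
  have := Int.floor_div_natCast (2 ^ (k + 1) * x) 2
  push_cast at this
  rw [← this]; congr 1; ring

lemma ps_fac {k k' : ℕ} (hk : k ≤ k') {x y : ℝ} (h : ps k' x = ps k' y) : ps k x = ps k y := by
  induction hk with
  | refl => exact h
  | @step k' _ ih =>
    refine ih ?_
    simp only [ps, chi, fl_succ k', Nat.succ_eq_add_one, pow_succ (4 : ℤ)] at h ⊢
    have : (0 : ℤ) < 4 ^ k' := by positivity
    generalize (4 : ℤ) ^ k' = P at *
    generalize ⌊2 ^ (k' + 1) * x⌋ = u at *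
    generalize ⌊2 ^ (k' + 1) * y⌋ = v at *
    split_ifs at h ⊢ <;> simp only [Option.some.injEq] at * <;> omega

lemma ps_meas (k : ℕ) (s : Set (Option ℤ)) : MeasurableSet (ps k ⁻¹' s) :=
  (Int.measurable_floor.comp (measurable_const_mul _))
    (MeasurableSet.of_discrete (s := chi k ⁻¹' s))

lemma W_ev (x : ℝ) : ∀ᶠ k in atTop, x ∈ W k := by
  filter_upwards [(tendsto_pow_atTop_atTop_of_one_lt (r := (2 : ℝ)) (by norm_num)).eventually
    (eventually_gt_atTop |x|)] with k hk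
  exact ⟨(abs_lt.1 hk).1.le, (abs_lt.1 hk).2⟩

lemma W_mono : Monotone W := fun k k' h => by
  have : (2 : ℝ) ^ k ≤ 2 ^ k' := pow_le_pow_right₀ (by norm_num) h
  exact Ico_subset_Ico (by linarith) this

lemma W_tend {D : Set ℝ} (hD : MeasurableSet D) (h : volume D ≠ ⊤) :
    Tendsto (fun k => volume (D \ W k)) atTop (𝓝 0) := by
  simpa [W] using tendsto_measure_of_ae_tendsto_indicator (μ := volume) atTop MeasurableSet.empty
    (fun k => hD.diff (measurableSet_Ico (a := -2 ^ k) (b := 2 ^ k))) hD h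
    (Eventually.of_forall fun _ => sdiff_subset)
    (Eventually.of_forall fun x => (W_ev x).mono fun k hk => ⟨fun q => q.2 hk, False.elim⟩)

def Df (k : ℕ) (S S' : GI) : Set ℝ := {x | ps k (S.1 x) ≠ ps k (S'.1 x)}

lemma Df_sub (k : ℕ) (S S' : GI) : Df k S S' ⊆ ⋃ z ∈ Finset.Ico (-4 ^ k : ℤ) (4 ^ k),
    symmDiff (S.1 ⁻¹' (ps k ⁻¹' {some z})) (S'.1 ⁻¹' (ps k ⁻¹' {some z})) := by
  intro x hx
  have a : ∀ y, ps k y = none ∨ ∃ z ∈ Finset.Ico (-4 ^ k : ℤ) (4 ^ k), ps k y = some z := by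
    intro y
    simp only [ps, chi, Finset.mem_Ico]
    split_ifs with c
    exacts [Or.inr ⟨_, c, rfl⟩, Or.inl rfl]
  rcases a (S.1 x) with h | ⟨z, hz, h⟩
  · rcases a (S'.1 x) with h' | ⟨z, hz, h'⟩
    · exact absurd (h.trans h'.symm) hx
    · exact mem_iUnion₂.2 ⟨z, hz, Or.inr ⟨h', fun q => hx (q.trans h'.symm)⟩⟩
  · exact mem_iUnion₂.2 ⟨z, hz, Or.inl ⟨h, fun q => hx (h.trans q.symm)⟩⟩

lemma Df_meas (k : ℕ) (S S' : GI) : MeasurableSet (Df k S S') := by
  have : Df k S S' = ⋃ z, S.1 ⁻¹' (ps k ⁻¹' {z}) ∩ S'.1 ⁻¹' (ps k ⁻¹' {z}ᶜ) := by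
    ext x; simp [Df, eq_comm]
  rw [this]
  exact MeasurableSet.iUnion fun z => (S.1.measurable (ps_meas _ _)).inter
    (S'.1.measurable (ps_meas _ _))

lemma W_fin (k : ℕ) : volume (W k) ≠ ⊤ := measure_Ico_lt_top.ne

lemma Df_fin (k : ℕ) (S S' : GI) : volume (Df k S S') ≠ ⊤ := by
  refine ne_top_of_le_ne_top (measure_union_ne_top (pre_fin S measurableSet_Ico (W_fin k))
    (pre_fin S' measurableSet_Ico (W_fin k))) (measure_mono fun x hx => ?_)
  by_contra c
  simp only [mem_union, not_or, mem_preimage] at c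
  exact hx ((not_not.1 (mt (ps_none _ _).1 c.1)).trans (not_not.1 (mt (ps_none _ _).1 c.2)).symm)

noncomputable def rho (k : ℕ) (S S' : GI) : ℝ := volume.real (Df k S S')

lemma rho0 (k : ℕ) (S S' : GI) : 0 ≤ rho k S S' := measureReal_nonneg

lemma rho_self (k : ℕ) (S : GI) : rho k S S = 0 := by simp [rho, Df]

lemma rho_comm (k : ℕ) (S S' : GI) : rho k S S' = rho k S' S := by simp only [rho, Df, ne_comm]

lemma rho_tri (k : ℕ) (S S' S'' : GI) : rho k S S'' ≤ rho k S S' + rho k S' S'' :=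
  (measureReal_mono (s₂ := Df k S S' ∪ Df k S' S'') (fun x hx => by
    by_contra c
    simp only [mem_union, not_or, Df, mem_ofPred_eq, not_not] at c
    exact hx (c.1.trans c.2)) (measure_union_ne_top (Df_fin _ _ _) (Df_fin _ _ _))).trans
    (measureReal_union_le _ _)

lemma rho_mul (k : ℕ) (S S' R : GI) : rho k (S * R) (S' * R) = rho k S S' :=
  R.2.measureReal_preimage (Df_meas k S S').nullMeasurableSet

lemma rho_mono {k k' : ℕ} (h : k ≤ k') (S S' : GI) : rho k S S' ≤ rho k' S S' :=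
  measureReal_mono (fun _ hx q => hx (ps_fac h q)) (Df_fin _ _ _)

lemma rho_tend {ι : Type} {l : Filter ι} {F : ι → GI} {S : GI} :
    Tendsto F l (𝓝 S) ↔ ∀ k, Tendsto (fun i => rho k (F i) S) l (𝓝 0) := by
  refine ⟨fun h k => ?_, fun h => cv_of fun A hA hA' => ku (sub_mp S) (fun K U hK hU hKU => ?_)
    hA hA'⟩
  · have := tendsto_finsetSum (Finset.Ico (-4 ^ k : ℤ) (4 ^ k)) fun z _ =>
      tend_iff.1 h _ (ps_meas k {some z}) (ne_top_of_le_ne_top (W_fin k)
        (measure_mono fun x hx => (ps_none k x).1 (by simp [mem_singleton_iff.1 hx])))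
    rw [Finset.sum_const_zero] at this
    exact (ENNReal.tendsto_toReal ENNReal.zero_ne_top).comp
      (tendsto_of_tendsto_of_tendsto_of_le_of_le tendsto_const_nhds this (fun _ => zero_le)
        fun i => (measure_mono (Df_sub _ _ _)).trans (measure_biUnion_finset_le _ _))
  · obtain ⟨δ, d0, d1⟩ := hK.exists_cthickening_subset_open hU hKU
    obtain ⟨R, hR⟩ := hK.isBounded.subset_closedBall 0
    obtain ⟨k, k1, k2, k3⟩ := ((W_ev R).and ((W_ev (-R)).and
      ((tendsto_pow_atTop_nhds_zero_of_lt_one (r := (1 / 2 : ℝ)) (by norm_num)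
        (by norm_num)).eventually (ge_mem_nhds d0)))).exists
    have := ENNReal.tendsto_ofReal (h k)
    rw [ENNReal.ofReal_zero] at this
    refine tendsto_of_tendsto_of_tendsto_of_le_of_le tendsto_const_nhds this (fun _ => zero_le)
      fun i => ?_
    rw [rho, ofReal_measureReal (Df_fin _ _ _)]
    refine measure_mono fun x hx q => hx.2 (d1 ?_)
    have b := hR hx.1
    rw [Metric.mem_closedBall, Real.dist_eq, sub_zero, abs_le] at b
    refine Metric.mem_cthickening_of_dist_le _ (S.1 x) _ _ hx.1 ?_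
    rw [dist_comm, one_div_pow] at *
    exact (ps_close ⟨k2.1.trans b.1, b.2.trans_lt k1.2⟩ q).2.trans k3

lemma rho_cont (k : ℕ) : Continuous fun p : GI × GI => rho k p.1 p.2 := by
  refine continuous_iff_continuousAt.2 fun p => tendsto_iff_dist_tendsto_zero.2 ?_
  have := (rho_tend.1 (continuous_fst.tendsto p) k).add (rho_tend.1 (continuous_snd.tendsto p) k)
  rw [add_zero] at this
  refine squeeze_zero (fun _ => dist_nonneg) (fun q => ?_) this
  rw [Real.dist_eq, abs_le]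
  constructor <;> linarith [rho_tri k q.1 p.1 q.2, rho_tri k p.1 p.2 q.2, rho_comm k p.2 q.2,
    rho_tri k p.1 q.1 p.2, rho_tri k q.1 q.2 p.2, rho_comm k p.1 q.1]

lemma ae_of_rho {S S' : GI} (h : ∀ k, rho k S S' = 0) : ⇑S.1 =ᵐ[volume] S'.1 := by
  have : ∀ k, ∀ᵐ x, x ∉ Df k S S' := fun k => measure_eq_zero_iff_ae_notMem.1
    ((measureReal_eq_zero_iff (Df_fin k S S')).1 (h k))
  filter_upwards [ae_all_iff.2 this] with x hx
  refine dist_le_zero.1 (ge_of_tendsto (tendsto_pow_atTop_nhds_zero_of_lt_one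
    (r := (1 / 2 : ℝ)) (by norm_num) (by norm_num)) ((W_ev (S.1 x)).mono fun k hk => ?_))
  rw [one_div_pow]
  exact (ps_close hk (not_not.1 (hx k)).symm).2

lemma ae_lim {F : ℕ → GI} {k0 : ℕ} (h : ∑' m, volume (Df (k0 + m) (F (m + 1)) (F m)) ≠ ⊤)
    (h' : ∑' m, volume (Df (k0 + m) (F (m + 1))⁻¹ (F m)⁻¹) ≠ ⊤) :
    ∀ᵐ x, ∃ y, Tendsto (fun n => (F n).1 x) atTop (𝓝 y) := by
  have a : ∀ j m0 : ℕ, ∀ᵐ x, x ∈ W j → ∃ m ≥ m0, (F m).1 x ∈ W (k0 + m) := fun j m0 => by
    let D := (F j)⁻¹.1 ⁻¹' W j ∪ ⋃ m, Df (k0 + m) (F (m + 1))⁻¹ (F m)⁻¹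
    have mD : MeasurableSet D := ((F j)⁻¹.1.measurable measurableSet_Ico).union
      (MeasurableSet.iUnion fun m => Df_meas _ _ _)
    have fD : volume D ≠ ⊤ := measure_union_ne_top (pre_fin _ measurableSet_Ico (W_fin j))
      (ne_top_of_le_ne_top h' (measure_iUnion_le _))
    have sub : ∀ m ≥ j, (F m)⁻¹.1 ⁻¹' W j ⊆ D := fun m hm => by
      induction hm with
      | refl => exact subset_union_left
      | @step m hm ih =>
        intro x hx
        by_cases c : x ∈ Df (k0 + m) (F (m + 1))⁻¹ (F m)⁻¹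
        · exact Or.inr (mem_iUnion.2 ⟨m, c⟩)
        · exact ih (ps_close hx (ps_fac (le_add_left hm) (not_not.1 c)).symm).1
    refine le_antisymm (ge_of_tendsto ((W_tend mD fD).comp (tendsto_add_atTop_nat k0))
      ((eventually_ge_atTop (max j m0)).mono fun m hm => ?_)) zero_le
    refine le_trans (measure_mono fun x hx => ?_) (sub_mp (F m) _)
    simp only [mem_compl_iff, mem_ofPred_eq, not_forall, not_exists, not_and] at hx
    obtain ⟨h1, h2⟩ := hx
    refine ⟨sub m (le_of_max_le_left hm) ?_, by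
      simpa only [mem_preimage, add_comm] using h2 m (le_of_max_le_right hm)⟩
    rwa [mem_preimage, show (F m)⁻¹.1 ((F m).1 x) = x from (F m).1.symm_apply_apply x]
  filter_upwards [ae_all_iff.2 fun j => ae_all_iff.2 (a j), ae_eventually_notMem h] with x h1 h2
  obtain ⟨j, hj⟩ := (W_ev x).exists
  obtain ⟨m0, h2⟩ := eventually_atTop.1 h2
  obtain ⟨m, hm, h3⟩ := h1 j m0 hj
  have b : ∀ n, (F (n + m)).1 x ∈ W (k0 + (n + m)) := fun n => by
    induction n with
    | zero => simpa using h3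
    | succ n ih =>
      rw [add_right_comm]
      exact W_mono (Nat.le_succ _) (ps_close ih (not_not.1 (h2 _ (by omega)))).1
  obtain ⟨y, hy⟩ := cauchySeq_tendsto_of_complete (cauchySeq_of_le_geometric_two (C := 2)
    (f := fun n => (F (n + m)).1 x) fun n => by
      rw [add_right_comm]
      refine (ps_close (b n) (not_not.1 (h2 _ (by omega)))).2.trans ?_
      rw [div_self two_ne_zero]
      exact one_div_le_one_div_of_le (by positivity) (pow_le_pow_right₀ (by norm_num) (by omega)))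
  exact ⟨y, (tendsto_add_atTop_iff_nat m).1 hy⟩

lemma lim1 {F : ℕ → GI} {k0 : ℕ} {C : ℝ} (h : ∀ m, rho (k0 + m) (F (m + 1)) (F m) ≤ C / 2 ^ m)
    (h' : ∀ m, rho (k0 + m) (F (m + 1))⁻¹ (F m)⁻¹ ≤ C / 2 ^ m) : ∃ S, Tendsto F atTop (𝓝 S) := by
  have a : ∀ F : ℕ → GI, (∀ m, rho (k0 + m) (F (m + 1)) (F m) ≤ C / 2 ^ m) →
      ∑' m, volume (Df (k0 + m) (F (m + 1)) (F m)) ≠ ⊤ := fun F h => by
    have s : Summable fun m : ℕ => C / 2 ^ m := by
      simpa [div_eq_mul_inv] using (summable_geometric_two).mul_left C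
    refine ne_top_of_le_ne_top (s.tsum_ofReal_ne_top) (ENNReal.tsum_le_tsum fun m => ?_)
    rw [← ofReal_measureReal (Df_fin _ _ _)]
    exact ENNReal.ofReal_le_ofReal (h m)
  have a1 := a F h
  have a2 := a (fun n => (F n)⁻¹) h'
  exact lim0 (ae_lim a1 a2) (ae_lim (F := fun n => (F n)⁻¹) a2 (by simpa only [inv_inv] using a1))

end Pool.Agent.H.MP_ba7837_an
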