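import Mathlib
import Pool.Agent.H.MP_ba7837_an.B

namespace Pool.Agent.H.MP_ba7837_an

open MeasureTheory Set Filter Topology

def PA (T : GI) : Prop :=
  ∀ (k L w θ : ℕ) (ε1 ε2 ε' : ℚ), 0 < L → 0 < ε' → rho k (T ^ w) 1 < ε1 →
    rho k (T ^ (L * w)) (T ^ θ) < ε2 → ∃ K w', 0 < K ∧ rho (k + 1) (T ^ w') 1 < ε' ∧
      rho (k + 1) (T ^ (L * K * w')) (T ^ θ) < ε' ∧
      (∀ i ≤ L * K, rho k (T ^ (i * w')) (T ^ (i / K * w)) < 3 * (ε1 + ε2)) ∧
      rho k (T ^ (K * w')) (T ^ w) < 2 * ε2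

noncomputable def nr (T : GI) (k : ℕ) (n : ℤ) : ℝ := rho k (T ^ n) 1

variable {T : GI}

lemma rho_lim {ι : Type} {l : Filter ι} {F F' : ι → GI} {S S' : GI} (k : ℕ)
    (h : Tendsto F l (𝓝 S)) (h' : Tendsto F' l (𝓝 S')) :
    Tendsto (fun i => rho k (F i) (F' i)) l (𝓝 (rho k S S')) :=
  ((rho_cont k).tendsto (S, S')).comp (f := fun i => (F i, F' i)) (h.prodMk_nhds h')

lemma rho_z (k : ℕ) (u v : ℤ) : rho k (T ^ u) (T ^ v) = nr T k (u - v) := by
  rw [nr, ← rho_mul k _ 1 (T ^ v), one_mul, ← zpow_add, sub_add_cancel]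

lemma rho_n (k u v : ℕ) : rho k (T ^ u) (T ^ v) = nr T k (u - v) := by
  rw [← rho_z, zpow_natCast, zpow_natCast]

lemma nr_add (k : ℕ) (a b : ℤ) : nr T k (a + b) ≤ nr T k a + nr T k b := by
  have := rho_tri k (T ^ (a + b)) (T ^ b) 1
  rwa [rho_z, add_sub_cancel_right] at this

lemma nr_neg (k : ℕ) (a : ℤ) : nr T k (-a) = nr T k a := by
  rw [← zero_sub, ← rho_z, rho_comm, zpow_zero, nr]

lemma nr_zero (k : ℕ) : nr T k 0 = 0 := by rw [nr, zpow_zero, rho_self]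

lemma nr_mul (k : ℕ) (s a : ℤ) : nr T k (s * a) ≤ |(s : ℝ)| * nr T k a := by
  have h : ∀ n : ℕ, nr T k (n * a) ≤ n * nr T k a := fun n => by
    induction n with
    | zero => simp [nr_zero]
    | succ n ih =>
      push_cast
      rw [add_mul, one_mul]
      linarith [nr_add (T := T) k (n * a) a]
  obtain ⟨n, rfl | rfl⟩ := s.eq_nat_or_neg
  · simpa using h n
  · simpa [nr_neg] using h n

lemma fl_split (t : ℝ) (L : ℕ) : ⌊t * L⌋ = ⌊t⌋ * L + ⌊Int.fract t * L⌋₊ := by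
  rw [Int.natCast_floor_eq_floor (mul_nonneg (Int.fract_nonneg t) (Nat.cast_nonneg L)),
    ← Int.floor_intCast_add]
  congr 1
  push_cast
  rw [← add_mul, Int.floor_add_fract]

theorem flow (hA : PA T) (θ k0 L0 w0 : ℕ) {η : ℚ} (hL : 0 < L0) (h1 : rho k0 (T ^ w0) 1 < η)
    (h2 : rho k0 (T ^ (L0 * w0)) (T ^ θ) < η) : ∃ φ : ℝ → GI, Continuous φ ∧
      (∀ s t, ⇑(φ (s + t)).1 =ᵐ[volume] (φ s * φ t).1) ∧ ⇑(φ 1).1 =ᵐ[volume] (T ^ θ).1 ∧
      (∀ t, ⇑(φ t * T).1 =ᵐ[volume] (T * φ t).1) ∧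
      ∀ t, rho k0 (φ t) (T ^ (⌊t * L0⌋ * w0 : ℤ)) ≤ 2 * (6 + 2 * |(⌊t⌋ : ℝ)|) * η := by
  have η0 : (0 : ℝ) < η := (rho0 _ _ _).trans_lt h1
  have η1 : 0 < η := by exact_mod_cast η0
  let Iv : ℕ → ℕ × ℕ → Prop := fun m p => 0 < p.1 ∧ rho (k0 + m) (T ^ p.2) 1 < η / 2 ^ m ∧
    rho (k0 + m) (T ^ (p.1 * p.2)) (T ^ θ) < η / 2 ^ m
  have step : ∀ m p, Iv m p → ∃ q : ℕ × ℕ, 0 < q.1 ∧ Iv (m + 1) (p.1 * q.1, q.2) ∧
      ∀ i ≤ p.1 * q.1, rho (k0 + m) (T ^ (i * q.2)) (T ^ (i / q.1 * p.2)) < 6 * (η / 2 ^ m) := by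
    rintro m p ⟨a, b, c⟩
    obtain ⟨K, w', K0, d1, d2, d3, -⟩ := hA (k0 + m) p.1 p.2 θ (η / 2 ^ m) (η / 2 ^ m)
      (η / 2 ^ (m + 1)) a (by positivity) (by exact_mod_cast b) (by exact_mod_cast c)
    push_cast at d1 d2 d3
    exact ⟨(K, w'), K0, ⟨Nat.mul_pos a K0, d1, d2⟩, fun i hi => (d3 i hi).trans_eq (by ring)⟩
  choose! nx hnx using step
  let P : ℕ → ℕ × ℕ := fun m => Nat.rec (L0, w0) (fun m p => (p.1 * (nx m p).1, (nx m p).2)) m
  have I : ∀ m, Iv m (P m) := fun m => by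
    induction m with
    | zero => exact ⟨hL, by simpa [P] using h1, by simpa [P] using h2⟩
    | succ m ih => exact (hnx m _ ih).2.1
  have J1 : ∀ m, ∀ k ≤ k0 + m, nr T k (P m).2 ≤ η / 2 ^ m := fun m k hk => by
    rw [nr, zpow_natCast]; exact (rho_mono hk _ _).trans (I m).2.1.le
  have J2 : ∀ m, ∀ k ≤ k0 + m, nr T k ((P m).1 * (P m).2 - θ) ≤ η / 2 ^ m := fun m k hk => by
    have := (rho_mono hk _ _).trans (I m).2.2.le
    rwa [rho_n, Nat.cast_mul] at this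
  let n : ℕ → ℝ → ℤ := fun m t => ⌊t * (P m).1⌋ * (P m).2
  have key : ∀ t m, nr T (k0 + m) (n (m + 1) t - n m t) ≤ (6 + 2 * |(⌊t⌋ : ℝ)|) * η / 2 ^ m := by
    intro t m
    obtain ⟨K0, -, d⟩ := hnx m _ (I m)
    have e1 : (P (m + 1)).1 = (P m).1 * (nx m (P m)).1 := rfl
    have e2 : (P (m + 1)).2 = (nx m (P m)).2 := rfl
    have d1 := d ⌊Int.fract t * (P (m + 1)).1⌋₊ (Nat.floor_le_of_le (by
      rw [← e1]; exact mul_le_of_le_one_left (Nat.cast_nonneg _) (Int.fract_lt_one t).le))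
    have K1 : ((nx m (P m)).1 : ℝ) ≠ 0 := by positivity
    rw [← Nat.floor_div_natCast, e1, Nat.cast_mul, ← mul_assoc, mul_div_cancel_right₀ _ K1,
      mul_assoc, ← Nat.cast_mul, ← e1, ← e2, rho_n] at d1
    have d2 := J2 (m + 1) (k0 + m) (by omega)
    have d3 := J2 m _ le_rfl
    have d4 := nr_add (T := T) (k0 + m) ((P (m + 1)).1 * (P (m + 1)).2 - θ)
      (-((P m).1 * (P m).2 - θ))
    have d5 := nr_mul (T := T) (k0 + m) ⌊t⌋ ((P (m + 1)).1 * (P (m + 1)).2 - θ +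
      -((P m).1 * (P m).2 - θ))
    rw [nr_neg] at d4
    refine le_trans (le_of_eq (congrArg _ ?_)) ((nr_add _ _ _).trans ((add_le_add d1.le d5).trans ?_))
    · simp only [n]
      rw [fl_split t (P (m + 1)).1, fl_split t (P m).1]
      push_cast; ring
    · have : (η : ℝ) / 2 ^ (m + 1) ≤ η / 2 ^ m :=
        div_le_div_of_nonneg_left η0.le (by positivity) (pow_le_pow_right₀ (by norm_num) (by omega))
      have := mul_le_mul_of_nonneg_left (d4.trans (add_le_add (d2.trans this) d3))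
        (abs_nonneg (⌊t⌋ : ℝ))
      rw [mul_div_assoc]
      linarith
  have ex : ∀ t, ∃ S, Tendsto (fun m => T ^ n m t) atTop (𝓝 S) := fun t =>
    lim1 (k0 := k0) (fun m => by rw [rho_z]; exact key t m) fun m => by
      rw [← zpow_neg, ← zpow_neg, rho_z, ← nr_neg]
      exact le_of_eq_of_le (congrArg _ (by ring)) (key t m)
  choose φ hφ using ex
  have tail : ∀ t M, ∀ k ≤ k0 + M,
      rho k (φ t) (T ^ n M t) ≤ 2 * (6 + 2 * |(⌊t⌋ : ℝ)|) * η / 2 ^ M := fun t M k hk => by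
    refine le_of_tendsto (rho_lim k (hφ t) (tendsto_const_nhds (x := T ^ n M t)))
      ((eventually_ge_atTop M).mono fun m hm => ?_)
    have : rho k (T ^ n m t) (T ^ n M t) + 2 * (6 + 2 * |(⌊t⌋ : ℝ)|) * η / 2 ^ m ≤
        2 * (6 + 2 * |(⌊t⌋ : ℝ)|) * η / 2 ^ M := by
      induction hm with
      | refl => rw [rho_self, zero_add]
      | @step m hm ih =>
        have a := rho_tri k (T ^ n (m + 1) t) (T ^ n m t) (T ^ n M t)
        have b := rho_mono (hk.trans (Nat.add_le_add_left hm k0)) (T ^ n (m + 1) t) (T ^ n m t)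
        rw [rho_z (k0 + m)] at b
        have c := key t m
        have d : 2 * (6 + 2 * |(⌊t⌋ : ℝ)|) * η / 2 ^ m = (6 + 2 * |(⌊t⌋ : ℝ)|) * η / 2 ^ m +
          2 * (6 + 2 * |(⌊t⌋ : ℝ)|) * η / 2 ^ (m + 1) := by field_simp; ring
        simp only [Nat.succ_eq_add_one]
        linarith
    exact le_trans (le_add_of_nonneg_right (by positivity)) this
  have t0 : ∀ C : ℝ, Tendsto (fun m : ℕ => C / 2 ^ m) atTop (𝓝 0) := fun C =>
    tendsto_const_nhds.div_atTop (tendsto_pow_atTop_atTop_of_one_lt (by norm_num))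
  have z : ∀ {F F' : ℕ → GI} {S S' : GI}, Tendsto F atTop (𝓝 S) → Tendsto F' atTop (𝓝 S') →
      (∀ m, ∀ k ≤ k0 + m, rho k (F m) (F' m) ≤ η / 2 ^ m) → ⇑S.1 =ᵐ[volume] S'.1 :=
    fun h h' H => ae_of_rho fun k => le_antisymm (le_of_tendsto_of_tendsto
      (rho_lim k h h') (t0 η)
      ((eventually_ge_atTop k).mono fun m hm => H m k (le_add_left hm))) (rho0 _ _ _)
  have sm : ∀ m, ∀ k ≤ k0 + m, ∀ c : ℤ, |c| ≤ 1 → nr T k (c * (P m).2) ≤ η / 2 ^ m :=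
    fun m k hk c hc => (nr_mul _ _ _).trans ((mul_le_of_le_one_left (rho0 _ _ _)
      (by exact_mod_cast hc)).trans (J1 m k hk))
  refine ⟨φ, continuous_iff_continuousAt.2 fun t => rho_tend.2 fun k => ?_, fun s t =>
    z (hφ _) ((hφ s).mul (hφ t)) fun m k hk => ?_, z (hφ 1) tendsto_const_nhds fun m k hk => ?_,
    fun t => z ((hφ t).mul_const T) ((hφ t).const_mul T) fun m k hk => ?_, fun t => ?_⟩
  · refine Metric.tendsto_nhds.2 fun ε ε0 => ?_
    obtain ⟨M, hM, hM'⟩ := ((eventually_ge_atTop k).and ((t0 ((4 * (6 + 2 * (|t| + 2)) + 1) * η)).eventually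
      (gt_mem_nhds ε0))).exists
    have L1 : (1 : ℝ) ≤ (P M).1 := by exact_mod_cast (I M).1
    filter_upwards [Metric.ball_mem_nhds t (show (0 : ℝ) < 1 / (P M).1 by positivity)] with s hs
    rw [Metric.mem_ball, Real.dist_eq, lt_div_iff₀ (by positivity)] at hs
    have hs1 : |s - t| < 1 := (le_mul_of_one_le_right (abs_nonneg _) L1).trans_lt hs
    have b : ∀ u : ℝ, |u - t| < 1 → |(⌊u⌋ : ℝ)| ≤ |t| + 2 := fun u hu => by
      rw [abs_lt] at hu
      rw [abs_le]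
      constructor <;> linarith [Int.floor_le u, Int.lt_floor_add_one u, le_abs_self t, neg_abs_le t,
        hu.1, hu.2]
    have c : ∀ u : ℝ, |u - t| < 1 →
        rho k (φ u) (T ^ n M u) ≤ 2 * (6 + 2 * (|t| + 2)) * η / 2 ^ M := fun u hu =>
      (tail u M k (le_add_left hM)).trans (by gcongr; exact b u hu)
    have c1 := c s hs1
    have c2 := c t (by simp)
    have c3 : rho k (T ^ n M s) (T ^ n M t) ≤ η / 2 ^ M := by
      rw [rho_z, ← sub_mul]
      refine sm M k (le_add_left hM) _ (Int.lt_add_one_iff.1 (Int.cast_lt (R := ℝ) |>.1 ?_))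
      rw [← abs_of_pos (show (0 : ℝ) < (P M).1 by positivity), ← abs_mul, sub_mul, abs_lt] at hs
      push_cast
      rw [abs_lt]
      constructor <;> linarith [Int.floor_le (s * (P M).1), Int.lt_floor_add_one (s * (P M).1),
        Int.floor_le (t * (P M).1), Int.lt_floor_add_one (t * (P M).1), hs.1, hs.2]
    rw [Real.dist_eq, sub_zero, abs_of_nonneg (rho0 _ _ _)]
    have c4 := rho_tri k (φ s) (T ^ n M s) (φ t)
    have c5 := rho_tri k (T ^ n M s) (T ^ n M t) (φ t)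
    rw [rho_comm k (T ^ n M t)] at c5
    have c6 : (4 * (6 + 2 * (|t| + 2)) + 1) * η / 2 ^ M =
      2 * (2 * (6 + 2 * (|t| + 2)) * η / 2 ^ M) + η / 2 ^ M := by ring
    linarith
  · rw [← zpow_add, rho_z, ← add_mul, ← sub_mul]
    refine sm m k hk _ ?_
    have a := Int.le_floor_add (s * (P m).1) (t * (P m).1)
    have b := Int.le_floor_add_floor (s * (P m).1) (t * (P m).1)
    rw [add_mul, abs_le]
    omega
  · rw [← zpow_natCast, rho_z]
    simpa [n] using J2 m k hk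
  · rw [← zpow_add_one, ← zpow_one_add, add_comm, rho_self]; positivity
  · simpa [n, P] using tail t 0 k0 le_rfl

end Pool.Agent.H.MP_ba7837_an
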