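import Mathlib
import Pool.Agent.H.MP_ba7837_an.A
import Pool.Agent.H.MP_ba7837_an.C

namespace Pool.Agent.H.MP_ba7837_an

open MeasureTheory Set Filter Topology Pool.Agent.H.MP_a7cd30_an Pool.Agent.H.MP_20f905_an
  Pool.Agent.H.MP_5d8c24_an ProbabilityTheory

noncomputable def aE (j : ℕ) : ℝ ≃ᵐ ℝ where
  toFun y := 2 ^ (j + 1) * y - 2 ^ j
  invFun x := (x + 2 ^ j) / 2 ^ (j + 1)
  left_inv y := by field_simp; ring
  right_inv x := by field_simp; ring
  measurable_toFun := by show Measurable fun y : ℝ => 2 ^ (j + 1) * y - 2 ^ j; fun_prop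
  measurable_invFun := by show Measurable fun x : ℝ => (x + 2 ^ j) / 2 ^ (j + 1); fun_prop

lemma aE_ap (j : ℕ) (y : ℝ) : aE j y = 2 ^ (j + 1) * y - 2 ^ j := rfl

lemma aE_mem (j : ℕ) (y : ℝ) : aE j y ∈ W j ↔ y ∈ Ico (0 : ℝ) 1 := by
  have : (0 : ℝ) < 2 ^ j := by positivity
  simp only [W, aE_ap, mem_Ico, pow_succ]
  constructor <;> rintro ⟨a, b⟩ <;> constructor <;> nlinarith

lemma vol_aE (j : ℕ) (s : Set ℝ) :
    volume s = ENNReal.ofReal (2 ^ (j + 1)) * volume (aE j ⁻¹' s) := by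
  have : aE j ⁻¹' s = ((2 : ℝ) ^ (j + 1) * ·) ⁻¹' ((· + -(2 : ℝ) ^ j) ⁻¹' s) := by
    ext y; simp [aE_ap, sub_eq_add_neg]
  rw [this, Real.volume_preimage_mul_left (by positivity), measure_preimage_add_right, ← mul_assoc,
    ← ENNReal.ofReal_mul (by positivity), abs_of_pos (by positivity),
    mul_inv_cancel₀ (by positivity), ENNReal.ofReal_one, one_mul]

lemma c0 (j : ℕ) : ENNReal.ofReal (2 ^ (j + 1)) ≠ 0 := by simp

lemma ae_aE {j : ℕ} {P : ℝ → Prop} : (∀ᵐ y, P (aE j y)) ↔ ∀ᵐ x, P x := by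
  rw [ae_iff, ae_iff, vol_aE j {x | ¬ P x}, mul_eq_zero, or_iff_right (c0 j)]
  rfl

lemma mp_cj (j : ℕ) {f : ℝ → ℝ} (hf : MeasurePreserving f volume volume) :
    MeasurePreserving (aE j ∘ f ∘ (aE j).symm) volume volume ∧
    MeasurePreserving ((aE j).symm ∘ f ∘ aE j) volume volume := by
  have m1 := (aE j).measurable.comp (hf.measurable.comp (aE j).symm.measurable)
  have m2 := (aE j).symm.measurable.comp (hf.measurable.comp (aE j).measurable)
  refine ⟨⟨m1, Measure.ext fun B hB => ?_⟩, m2, Measure.ext fun B hB => ?_⟩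
  · rw [Measure.map_apply m1 hB, vol_aE j, vol_aE j B,
      ← hf.measure_preimage ((aE j).measurable hB).nullMeasurableSet]
    congr 2; ext y; simp
  · rw [Measure.map_apply m2 hB, ← ENNReal.mul_right_inj (c0 j) ENNReal.ofReal_ne_top,
      show ((aE j).symm ∘ f ∘ aE j) ⁻¹' B = aE j ⁻¹' (f ⁻¹' ((aE j).symm ⁻¹' B)) from rfl,
      ← vol_aE j, hf.measure_preimage ((aE j).symm.measurable hB).nullMeasurableSet, vol_aE j]
    congr 2; ext y; simp

open Classical in
noncomputable def ex (f : ℝ → ℝ) : ℝ → ℝ := (Ico (0 : ℝ) 1).piecewise f id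

lemma mu_ap (s : Set ℝ) : mu s = volume (s ∩ Ico (0 : ℝ) 1) := by
  rw [mu_eq, Measure.restrict_apply' measurableSet_Ico]

lemma ae_mu {P : ℝ → Prop} : (∀ᵐ y ∂mu, P y) ↔ ∀ᵐ y, y ∈ Ico (0 : ℝ) 1 → P y := by
  rw [mu_eq, ae_restrict_iff' measurableSet_Ico]

lemma ex_in {f : ℝ → ℝ} {y : ℝ} (h : y ∈ Ico (0 : ℝ) 1) : ex f y = f y :=
  piecewise_eq_of_mem _ _ _ h

lemma ex_out {f : ℝ → ℝ} {y : ℝ} (h : y ∉ Ico (0 : ℝ) 1) : ex f y = y :=
  piecewise_eq_of_notMem _ _ _ h

lemma ex_mp {f : ℝ → ℝ} (hf : MeasurePreserving f mu mu) : MeasurePreserving (ex f) volume volume := by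
  have m : Measurable (ex f) := hf.measurable.piecewise measurableSet_Ico measurable_id
  refine ⟨m, Measure.ext fun B hB => ?_⟩
  rw [Measure.map_apply m hB, ← measure_inter_add_sdiff _ (measurableSet_Ico (a := (0 : ℝ)) (b := 1)),
    ← measure_inter_add_sdiff B (measurableSet_Ico (a := (0 : ℝ)) (b := 1)), ← mu_ap B,
    ← hf.measure_preimage hB.nullMeasurableSet, mu_ap]
  congr 2
  · ext y; exact and_congr_left fun h => by rw [mem_preimage, ex_in h]; rfl
  · ext y; exact and_congr_left fun h => by rw [mem_preimage, ex_out h]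

lemma ex_iota (j : ℕ) (S : G) : ∃ e : GI, ∀ᵐ y, e.1 (aE j y) = aE j (ex S.1 y) := by
  obtain ⟨e, he⟩ := realize' (mp_cj j (ex_mp S.2)).1 (mp_cj j (ex_mp (inv S).2)).1.measurable (by
    refine (ae_aE (j := j)).1 ?_
    filter_upwards [ae_mu.1 (S.2.quasiMeasurePreserving.ae ae_I)] with y hy
    simp only [Function.comp, MeasurableEquiv.symm_apply_apply]
    by_cases c : y ∈ Ico (0 : ℝ) 1
    · rw [ex_in c, ex_in (hy c)]; exact congrArg _ (S.1.symm_apply_apply y)
    · rw [ex_out c, ex_out c])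
  refine ⟨⟨e.1, e.2⟩, ?_⟩
  filter_upwards [(ae_aE (j := j)).2 he] with y hy
  simpa using hy

noncomputable def io (j : ℕ) (S : G) : GI := (ex_iota j S).choose

lemma io_pow (j : ℕ) (S : G) (n : ℕ) : ∀ᵐ y, (io j S ^ n).1 (aE j y) =
    aE j (if y ∈ Ico (0 : ℝ) 1 then (⇑S.1)^[n] y else y) := by
  have a : ∀ᵐ y, (io j S ^ n).1 (aE j y) = aE j ((ex S.1)^[n] y) := by
    rw [pow_ap]
    induction n with
    | zero => exact Eventually.of_forall fun _ => rfl
    | succ n ih =>
      filter_upwards [ih, ((ex_mp S.2).iterate n).quasiMeasurePreserving.ae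
        (ex_iota j S).choose_spec] with y h1 h2
      rw [Function.iterate_succ_apply', Function.iterate_succ_apply', h1, ← h2]; rfl
  filter_upwards [a, ae_mu.1 (ae_all_iff.2 fun i : ℕ =>
    (S.2.iterate i).quasiMeasurePreserving.ae ae_I)] with y h1 h2
  rw [h1]
  congr 1
  split_ifs with c
  · clear h1 a
    induction n with
    | zero => rfl
    | succ n ih => rw [Function.iterate_succ_apply', Function.iterate_succ_apply', ih, ex_in (h2 c n)]
  · exact Function.iterate_fixed (ex_out c) n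

lemma io_rel (j : ℕ) (S S' : G) (u v : ℕ) {R : ℝ → ℝ → Prop} (hR : ∀ x, ¬ R x x) :
    volume {x | R ((io j S ^ u).1 x) ((io j S' ^ v).1 x)} = ENNReal.ofReal (2 ^ (j + 1)) *
      mu {y | R (aE j ((⇑S.1)^[u] y)) (aE j ((⇑S'.1)^[v] y))} := by
  rw [vol_aE j, mu_ap]
  refine congrArg _ (measure_congr ?_)
  filter_upwards [io_pow j S u, io_pow j S' v] with y h1 h2
  show R ((io j S ^ u).1 (aE j y)) ((io j S' ^ v).1 (aE j y)) = (_ ∧ _)
  rw [h1, h2]
  split_ifs with c
  · exact propext (and_iff_left c).symm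
  · exact propext ⟨fun q => absurd q (hR _), fun q => absurd q.2 c⟩

lemma io_rho (j k : ℕ) (S : G) (u v : ℕ) :
    rho k (io j S ^ u) (io j S ^ v) = 2 ^ (j + 1) * rG (fun y => ps k (aE j y)) S u v := by
  rw [rho, Measure.real, Df, io_rel j S S u v (R := fun a b => ps k a ≠ ps k b) (by simp),
    ENNReal.toReal_mul, ENNReal.toReal_ofReal (by positivity)]
  rfl

lemma io_cont (j : ℕ) : Continuous (io j) := by
  refine continuous_iff_continuousAt.2 fun S => tend_iff.2 fun A hA _ => ?_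
  have m := (aE j).measurable hA
  have := ENNReal.tendsto_ofReal (((cont_sd m (S.1.measurable m)).tendsto S).const_mul
    (2 ^ (j + 1)))
  simp only [symmDiff_self, bot_eq_empty, measureReal_empty, mul_zero, ENNReal.ofReal_zero] at this
  refine this.congr fun S' => ?_
  have e := io_rel j S' S 1 1 (R := fun a b => a ∈ A ∧ b ∉ A ∨ b ∈ A ∧ a ∉ A) (by simp)
  rw [pow_one, pow_one] at e
  rw [ENNReal.ofReal_mul (by positivity), ofReal_measureReal (measure_ne_top _ _)]
  exact e.symm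

lemma matching {E1 E2 : Set ℝ} (h : volume E1 = volume E2) (hf : volume E1 ≠ ⊤) :
    ∃ κ κ' : ℝ → ℝ, MeasurePreserving κ (volume.restrict E1) (volume.restrict E2) ∧
      Measurable κ' ∧ ∀ᵐ y ∂(volume.restrict E1), κ' (κ y) = y := by
  by_cases z : volume E1 = 0
  · refine ⟨id, id, ?_, measurable_id, Eventually.of_forall fun _ => rfl⟩
    rw [Measure.restrict_eq_zero.2 z, Measure.restrict_eq_zero.2 (h ▸ z)]
    exact MeasurePreserving.id _
  have := cond_isProbabilityMeasure_of_finite z hf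
  have := cond_isProbabilityMeasure_of_finite (h ▸ z) (h ▸ hf)
  have n : ∀ E : Set ℝ, NullSingletonClass (ProbabilityTheory.cond volume E) := fun E =>
    ⟨fun x => by simp [ProbabilityTheory.cond]⟩
  have := n E1
  have := n E2
  obtain ⟨f, g, a1, a2, a3, -⟩ := iso (μ := ProbabilityTheory.cond volume E1)
  obtain ⟨f', g', b1, b2, -, b4⟩ := iso (μ := ProbabilityTheory.cond volume E2)
  have e : ∀ E : Set ℝ, volume E ≠ 0 → volume E ≠ ⊤ →
      volume.restrict E = volume E • ProbabilityTheory.cond volume E := fun E h1 h2 => by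
    rw [ProbabilityTheory.cond, smul_smul, ENNReal.mul_inv_cancel h1 h2, one_smul]
  refine ⟨g' ∘ f, g ∘ f', ?_, a2.measurable.comp b1.measurable, ?_⟩
  · rw [e E1 z hf, e E2 (h ▸ z) (h ▸ hf), ← h]
    exact (b2.comp a1).smul_measure _
  · rw [e E1 z hf]
    refine Measure.ae_smul_measure ?_ _
    filter_upwards [a3, a1.quasiMeasurePreserving.ae b4] with y h1 h2
    simp only [Function.comp, h1, h2]

lemma induce (V : GI) : ∃ S : G, ∀ᵐ y, y ∈ Ico (0 : ℝ) 1 → V.1 y ∈ Ico (0 : ℝ) 1 → S.1 y = V.1 y := by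
  classical
  set I := Ico (0 : ℝ) 1
  have mI : MeasurableSet I := measurableSet_Ico
  have fI : volume I ≠ ⊤ := measure_Ico_lt_top.ne
  have m1 := V.1.measurable mI
  have m2 := V⁻¹.1.measurable mI
  have iv : ∀ y, V⁻¹.1 (V.1 y) = y := V.1.symm_apply_apply
  obtain ⟨κ, κ', h1, h2, h3⟩ := matching (E1 := I \ V.1 ⁻¹' I) (E2 := I \ V⁻¹.1 ⁻¹' I) (by
    rw [measure_sdiff_symm mI.nullMeasurableSet m1.nullMeasurableSet
      (V.2.measure_preimage mI.nullMeasurableSet).symm
      (ne_top_of_le_ne_top fI (measure_mono inter_subset_left)),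
      ← V.2.measure_preimage (mI.diff m2).nullMeasurableSet]
    congr 1; ext y; simp [iv]) (ne_top_of_le_ne_top fI (measure_mono sdiff_subset))
  have m : Measurable ((V.1 ⁻¹' I).piecewise V.1 κ) := V.1.measurable.piecewise m1 h1.measurable
  obtain ⟨S, hS, -⟩ := realize (f := (V.1 ⁻¹' I).piecewise V.1 κ)
    (g := (V⁻¹.1 ⁻¹' I).piecewise V⁻¹.1 κ') ⟨m, Measure.ext fun B hB => by
      rw [Measure.map_apply m hB, mu_ap, mu_ap, ← measure_inter_add_sdiff _ m1,
        ← measure_inter_add_sdiff (B ∩ I) m2,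
        ← V.2.measure_preimage ((hB.inter mI).inter m2).nullMeasurableSet, inter_sdiff_assoc B,
        ← Measure.restrict_apply hB, ← h1.measure_preimage hB.nullMeasurableSet,
        Measure.restrict_apply (h1.measurable hB)]
      congr 2
      · ext y
        simp only [mem_inter_iff, mem_preimage, iv]
        constructor
        · rintro ⟨⟨a, b⟩, c⟩
          rw [piecewise_eq_of_mem (V.1 ⁻¹' I) _ _ c] at a
          exact ⟨⟨a, c⟩, b⟩
        · rintro ⟨⟨a, b⟩, c⟩
          exact ⟨⟨by rwa [piecewise_eq_of_mem (V.1 ⁻¹' I) _ _ b], c⟩, b⟩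
      · ext y
        simp only [mem_inter_iff, Set.mem_sdiff, and_assoc]
        exact and_congr_left fun c => by
          rw [mem_preimage, piecewise_eq_of_notMem _ _ _ c.2]; rfl⟩
    (V⁻¹.1.measurable.piecewise m2 h2) (ae_mu.2 (by
      filter_upwards [(ae_restrict_iff' (mI.diff m1)).1 (h3.and
        (h1.quasiMeasurePreserving.ae (ae_restrict_mem (mI.diff m2))))] with y hy c
      by_cases d : y ∈ V.1 ⁻¹' I
      · rw [piecewise_eq_of_mem _ _ _ d, piecewise_eq_of_mem _ _ _ (by rwa [mem_preimage, iv]), iv]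
      · rw [piecewise_eq_of_notMem _ _ _ d, piecewise_eq_of_notMem _ _ _ (hy ⟨c, d⟩).2.2,
          (hy ⟨c, d⟩).1]))
  refine ⟨S, ?_⟩
  filter_upwards [ae_mu.1 hS] with y hy c d
  rw [hy c, piecewise_eq_of_mem (V.1 ⁻¹' I) _ _ d]

lemma io_dense (T : GI) {U : Set GI} (hU : IsOpen U) (hT : T ∈ U) :
    ∃ j, (io j ⁻¹' U).Nonempty := by
  choose S hS using fun j => induce ⟨(aE j).trans (T.1.trans (aE j).symm), (mp_cj j T.2).2⟩
  have : Tendsto (fun j => io j (S j)) atTop (𝓝 T) := by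
    refine cv_of fun A hA hA' => ?_
    have := (W_tend (T.1.measurable hA) (pre_fin T hA hA')).add (W_tend hA hA')
    rw [add_zero] at this
    refine tendsto_of_tendsto_of_tendsto_of_le_of_le tendsto_const_nhds this (fun _ => zero_le)
      fun j => (measure_mono_ae (t := (T.1 ⁻¹' A \ W j) ∪ T.1 ⁻¹' (A \ W j)) ?_).trans
        ((measure_union_le _ _).trans (add_le_add le_rfl (sub_mp _ _)))
    refine (ae_aE (j := j)).1 ?_
    filter_upwards [hS j, io_pow j (S j) 1] with y h1 h2 hy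
    by_contra c
    have c1 : aE j y ∈ W j := by_contra fun q => c (Or.inl ⟨hy.1, q⟩)
    have c2 : T.1 (aE j y) ∈ W j := by_contra fun q => c (Or.inr ⟨hy.1, q⟩)
    rw [aE_mem] at c1
    rw [← (aE j).apply_symm_apply (T.1 _), aE_mem] at c2
    rw [pow_one, if_pos c1, Function.iterate_one, h1 c1 c2] at h2
    exact hy.2 (by
      rw [mem_preimage, h2]
      exact ((aE j).apply_symm_apply _).symm ▸ hy.1)
  obtain ⟨j, hj⟩ := (this.eventually (hU.mem_nhds hT)).exists
  exact ⟨j, S j, hj⟩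

lemma cont_rp (k u v : ℕ) : Continuous fun T : GI => rho k (T ^ u) (T ^ v) :=
  continuous_iff_continuousAt.2 fun T =>
    rho_lim k ((continuous_pow u).tendsto T) ((continuous_pow v).tendsto T)

lemma fl_aE (j k : ℕ) {y : ℝ} (hy : y ∈ Ico (0 : ℝ) 1) :
    ⌊2 ^ k * aE j y⌋ = ((fin (2 ^ (j + 1) * 2 ^ k) y).val : ℤ) - 2 ^ j * 2 ^ k := by
  rw [fin_val hy, Int.natCast_floor_eq_floor (mul_nonneg (Nat.cast_nonneg _) hy.1),
    ← Int.floor_sub_intCast, aE_ap]
  congr 1; push_cast; ring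

theorem genI : ∀ᶠ T : GI in residual GI,
    PA T ∧ ∀ (k : ℕ) (ε : ℚ), 0 < ε → ∃ p, 0 < p ∧ rho k (T ^ p) (T ^ 0) < ε := by
  have o : ∀ (k u v : ℕ) (c : ℝ), IsOpen {T : GI | rho k (T ^ u) (T ^ v) < c} := fun k u v c =>
    isOpen_lt (cont_rp _ _ _) continuous_const
  refine Eventually.and (eventually_countable_forall.2 fun k => eventually_countable_forall.2
    fun L => eventually_countable_forall.2 fun w => eventually_countable_forall.2 fun θ =>
    eventually_countable_forall.2 fun ε1 => eventually_countable_forall.2 fun ε2 =>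
    eventually_countable_forall.2 fun ε' => eventually_imp_distrib_left.2 fun L0 =>
    eventually_imp_distrib_left.2 fun ε0 => ?_) (eventually_countable_forall.2 fun k =>
    eventually_countable_forall.2 fun ε => eventually_imp_distrib_left.2 fun ε0 => ?_)
  · refine (res_imp (O := {T : GI | rho k (T ^ w) (T ^ 0) < ε1 ∧
      rho k (T ^ (L * w)) (T ^ θ) < ε2}) (V := {T | ∃ K w', 0 < K ∧
        rho (k + 1) (T ^ w') (T ^ 0) < ε' ∧ rho (k + 1) (T ^ (L * K * w')) (T ^ θ) < ε' ∧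
        (∀ i ≤ L * K, rho k (T ^ (i * w')) (T ^ (i / K * w)) < 3 * (ε1 + ε2)) ∧
        rho k (T ^ (K * w')) (T ^ w) < 2 * ε2}) ?_ fun T hT => mem_closure_iff.2
          fun U hU hTU => ?_).mono fun T h a b => by
            simpa only [pow_zero, mem_ofPred_eq] using h ⟨by simpa, b⟩
    · simp only [ofPred_exists]
      refine isOpen_iUnion fun K => isOpen_iUnion fun w' => isOpen_const.and ((o _ _ _ _).and
        ((o _ _ _ _).and (IsOpen.and ?_ (o _ _ _ _))))
      simp only [ofPred_forall]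
      exact (finite_le_nat _).isOpen_biInter fun i _ => o _ _ _ _
    · have oO := hU.inter ((o k w 0 ε1).inter (o k (L * w) θ ε2))
      obtain ⟨j, hj⟩ := io_dense T oO ⟨hTU, hT⟩
      have p : (0 : ℝ) < 2 ^ (j + 1) := by positivity
      obtain ⟨S, hS, K, w', K0, a1, a2, a3, a4⟩ := dev (a := 2 ^ (j + 1) * 2 ^ (k + 1))
        (Ψ := fun y => ps k (aE j y)) (Ψ' := fun y => ps (k + 1) (aE j y))
        (f := fun u => chi k (((u.val : ℤ) - 2 ^ j * 2 ^ (k + 1)) / 2))
        (f' := fun u => chi (k + 1) ((u.val : ℤ) - 2 ^ j * 2 ^ (k + 1)))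
        (fun y hy => by rw [ps, fl_succ, fl_aE _ _ hy]) (fun y hy => by rw [ps, fl_aE _ _ hy])
        (w := w) (θ := θ) L0 (ε1 := ε1 / 2 ^ (j + 1)) (ε2 := ε2 / 2 ^ (j + 1))
        (div_pos (show (0 : ℝ) < ε' by exact_mod_cast ε0) p) (oO.preimage (io_cont j)) hj
        fun S hS => by
          simp only [lt_div_iff₀' p, ← io_rho]
          exact hS.2
      simp only [← add_div, ← mul_div_assoc, lt_div_iff₀' p, ← io_rho] at a1 a2 a3 a4
      exact ⟨io j S, hS.1, K, w', K0, a1, a2, a3, a4⟩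
  · refine residual_of_dense_open ?_ (dense_iff_inter_open.2 fun U hU ⟨T, hT⟩ => ?_)
    · simp only [ofPred_exists]
      exact isOpen_iUnion fun p => isOpen_const.inter (isOpen_lt (cont_rp _ _ _) continuous_const)
    · obtain ⟨j, hj⟩ := io_dense T hU hT
      obtain ⟨S, h1, p, p0, h2⟩ := rig (fun y => ps k (aE j y)) (hU.preimage (io_cont j)) hj
      exact ⟨io j S, h1, p, p0, by rw [io_rho, h2, mul_zero]; exact_mod_cast ε0⟩

end Pool.Agent.H.MP_ba7837_an
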