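import Mathlib
import Pool.Agent.H.MP_ba7837_an.D

namespace Pool.Agent.H.MP_ba7837_an

open MeasureTheory Set Filter Topology Pool.Agent.H.MP_5d8c24_an

lemma rho_ae (k : ℕ) {S S' : GI} (h : ⇑S.1 =ᵐ[volume] S'.1) (R : GI) : rho k S R = rho k S' R := by
  refine measureReal_congr ?_
  filter_upwards [h] with x hx
  show (ps k (S.1 x) ≠ _) = (ps k (S'.1 x) ≠ _)
  rw [hx]

lemma fl_iter {φ : ℝ → GI} (h : ∀ s t, ⇑(φ (s + t)).1 =ᵐ[volume] (φ s * φ t).1) {n : ℕ}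
    (hn : 0 < n) : (⇑(φ (1 / n)).1)^[n] =ᵐ[volume] (φ 1).1 := by
  have a : ∀ (t : ℝ) (m : ℕ), (⇑(φ t).1)^[m + 1] =ᵐ[volume] (φ ((m + 1 : ℕ) * t)).1 := by
    intro t m
    induction m with
    | zero => simp
    | succ m ih =>
      have e : ((m + 1 + 1 : ℕ) : ℝ) * t = t + (m + 1 : ℕ) * t := by push_cast; ring
      rw [e]
      filter_upwards [ih, h t ((m + 1 : ℕ) * t)] with x h1 h2
      rw [Function.iterate_succ_apply', h1, h2, mul_ap]
  obtain ⟨m, rfl⟩ := Nat.exists_eq_succ_of_ne_zero hn.ne'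
  have := a (1 / (m + 1 : ℕ)) m
  rwa [mul_one_div_cancel (by positivity)] at this

lemma exS {T : GI} (hA : PA T) (hR : ∀ (k : ℕ) (ε : ℚ), 0 < ε → ∃ p, 0 < p ∧
    rho k (T ^ p) (T ^ 0) < ε) : ∃ (S : GI) (p : ℕ), 0 < p ∧ (⇑S.1)^[p] =ᵐ[volume] id ∧
      ⇑(S * T).1 =ᵐ[volume] (T * S).1 ∧ ¬ ⇑S.1 =ᵐ[volume] id := by
  by_cases c : ∀ k, rho k T 1 = 0
  · have e := ae_of_rho c
    have n := Measure.measurePreserving_neg (volume : Measure ℝ)
    refine ⟨⟨MeasurableEquiv.neg ℝ, n⟩, 2, two_pos, Eventually.of_forall neg_neg, ?_, fun h => ?_⟩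
    · filter_upwards [e, n.quasiMeasurePreserving.ae e] with x h1 h2
      exact (congrArg Neg.neg h1).trans h2.symm
    · have : volume (Ioo (0 : ℝ) 1) = 0 := measure_mono_null (t := _ᶜ) (fun x hx q => by
        have : -x = x := q
        linarith [hx.1]) h
      simp at this
  obtain ⟨k, hk⟩ := not_forall.1 c
  have c0 := (rho0 k T 1).lt_of_ne' hk
  obtain ⟨η, η0, η1⟩ := exists_rat_btwn (show 0 < rho k T 1 / 20 by positivity)
  have η2 : 0 < η := by exact_mod_cast η0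
  obtain ⟨p, p0, hp⟩ := hR k η η2
  obtain ⟨ε1, h1⟩ := exists_rat_gt (rho k (T ^ 1) 1)
  obtain ⟨K, w, K0, a1, a2, -, a4⟩ := hA k p 1 0 ε1 η η p0 η2 h1 (by rwa [mul_one])
  obtain ⟨φ, -, f1, f2, f3, f4⟩ := flow hA 0 (k + 1) (p * K) w (by positivity) a1 a2
  refine ⟨φ (1 / p), p, p0, (fl_iter f1 p0).trans (by rwa [pow_zero] at f2), f3 _, fun h => ?_⟩
  have b := f4 (1 / p)
  have p1 : (1 : ℝ) ≤ p := by exact_mod_cast p0
  have e : (1 / p : ℝ) * (p * K : ℕ) = (K : ℤ) := by push_cast; field_simp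
  have d : |(⌊(1 / p : ℝ)⌋ : ℝ)| ≤ 1 := by
    rw [abs_of_nonneg (by exact_mod_cast Int.floor_nonneg.2 (by positivity))]
    exact (Int.floor_le _).trans (by rwa [div_le_one (by positivity)])
  rw [e, Int.floor_intCast, ← Nat.cast_mul, zpow_natCast, rho_ae (S' := 1) _ h] at b
  rw [pow_one] at a4
  have : rho k 1 (T ^ (K * w)) ≤ rho (k + 1) 1 (T ^ (K * w)) := rho_mono (Nat.le_succ k) _ _
  nlinarith [rho_tri k T (T ^ (K * w)) 1, rho_comm k T (T ^ (K * w)), rho_comm k 1 (T ^ (K * w))]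

theorem fac {T S : GI} {p : ℕ} (p0 : 0 < p) (hp : (⇑S.1)^[p] =ᵐ[volume] id)
    (hc : ⇑(S * T).1 =ᵐ[volume] (T * S).1) (hn : ¬ ⇑S.1 =ᵐ[volume] id) :
    ∃ (F : MeasurableSpace ℝ) (hF : F ≤ Real.measurableSpace),
      (∀ s, MeasurableSet[F] s → ∃ t, MeasurableSet[F] t ∧ T.1 ⁻¹' s =ᵐ[volume] t) ∧
      (∀ s, MeasurableSet[F] s → ∃ t, MeasurableSet[F] t ∧ s =ᵐ[volume] T.1 ⁻¹' t) ∧
      @SigmaFinite ℝ F (@Measure.trim ℝ F Real.measurableSpace
        (@volume ℝ Real.measureSpace) hF) ∧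
      ∃ s, MeasurableSet[Real.measurableSpace] s ∧ ∀ t, MeasurableSet[F] t → ¬ s =ᵐ[volume] t := by
  have q := fun R : GI => R.2.quasiMeasurePreserving
  have com : ∀ B : Set ℝ, S.1 ⁻¹' (T.1 ⁻¹' B) =ᵐ[volume] T.1 ⁻¹' (S.1 ⁻¹' B) := fun B => by
    filter_upwards [hc] with x hx
    exact congrArg (· ∈ B) hx.symm
  have hF : invAlg Real.measurableSpace volume S.1 ≤ Real.measurableSpace := fun B hB => hB.1
  refine ⟨_, hF, fun B hB => ⟨_, ⟨T.1.measurable hB.1, (com B).trans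
    ((q T).preimage_ae_eq hB.2)⟩, ae_eq_refl _⟩, fun B hB => ?_, ⟨⟨?_⟩⟩, ?_⟩
  · have e : ∀ t : Set ℝ, T.1 ⁻¹' (T⁻¹.1 ⁻¹' t) = t := fun t => by
      ext x; exact iff_of_eq (congrArg (· ∈ t) (T.1.symm_apply_apply x))
    have e' : ∀ t : Set ℝ, T⁻¹.1 ⁻¹' (T.1 ⁻¹' t) = t := fun t => by
      ext x; exact iff_of_eq (congrArg (· ∈ t) (T.1.apply_symm_apply x))
    refine ⟨T⁻¹.1 ⁻¹' B, ⟨T⁻¹.1.measurable hB.1, ?_⟩, by rw [e]⟩
    have := (q T⁻¹).preimage_ae_eq (com (T⁻¹.1 ⁻¹' B)).symm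
    rw [e', e] at this
    exact this.trans ((q T⁻¹).preimage_ae_eq hB.2)
  · have m : ∀ j, MeasurableSet (⋃ i ∈ Finset.range p, (⇑S.1)^[i] ⁻¹' W j) := fun j =>
      Finset.measurableSet_biUnion _ fun i _ => S.1.measurable.iterate i measurableSet_Ico
    have m' : ∀ j, MeasurableSet[invAlg Real.measurableSpace volume S.1]
        (⋃ i ∈ Finset.range p, (⇑S.1)^[i] ⁻¹' W j) := fun j => ⟨m j, by
      filter_upwards [hp] with x hx
      refine propext ⟨fun h => ?_, fun h => ?_⟩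
      · obtain ⟨i, hi, h⟩ := mem_iUnion₂.1 h
        rw [Finset.mem_range] at hi
        rcases (Nat.succ_le_of_lt hi).lt_or_eq with l | l
        · exact mem_iUnion₂.2 ⟨i + 1, Finset.mem_range.2 l, h⟩
        · refine mem_iUnion₂.2 ⟨0, Finset.mem_range.2 p0, ?_⟩
          rw [← l] at hx
          exact (show _ = x from hx) ▸ h
      · obtain ⟨i, hi, h⟩ := mem_iUnion₂.1 h
        rw [Finset.mem_range] at hi
        cases i with
        | zero =>
          refine mem_iUnion₂.2 ⟨p - 1, Finset.mem_range.2 (by omega), ?_⟩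
          rw [show p = p - 1 + 1 by omega] at hx
          show (⇑S.1)^[p - 1] (S.1 x) ∈ W j
          rwa [show (⇑S.1)^[p - 1] (S.1 x) = x from hx]
        | succ i => exact mem_iUnion₂.2 ⟨i, Finset.mem_range.2 (by omega), h⟩⟩
    refine ⟨fun j => ⋃ i ∈ Finset.range p, (⇑S.1)^[i] ⁻¹' W j, fun _ => trivial, fun j => ?_,
      eq_univ_of_forall fun x => ?_⟩
    · rw [trim_measurableSet_eq hF (m' j)]
      refine (measure_biUnion_finset_le _ _).trans_lt (ENNReal.sum_lt_top.2 fun i _ => ?_)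
      rw [W, (S.2.iterate i).measure_preimage measurableSet_Ico.nullMeasurableSet]
      exact measure_Ico_lt_top
    · obtain ⟨j, hj⟩ := (W_ev x).exists
      exact mem_iUnion.2 ⟨j, mem_iUnion₂.2 ⟨0, Finset.mem_range.2 p0, hj⟩⟩
  · by_contra! c
    refine hn ?_
    have : ∀ r : ℚ, S.1 ⁻¹' Iic (r : ℝ) =ᵐ[volume] Iic (r : ℝ) := fun r => by
      obtain ⟨t, ht, e⟩ := c _ (measurableSet_Iic (a := (r : ℝ)))
      exact ((q S).preimage_ae_eq e).trans (ht.2.trans e.symm)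
    filter_upwards [ae_all_iff.2 this] with x hx
    have e : ∀ r : ℚ, S.1 x ≤ r ↔ x ≤ r := fun r => iff_of_eq (hx r)
    rcases lt_trichotomy (S.1 x) x with l | l | l
    · obtain ⟨r, r1, r2⟩ := exists_rat_btwn l
      exact absurd ((e r).1 r1.le) r2.not_ge
    · exact l
    · obtain ⟨r, r1, r2⟩ := exists_rat_btwn l
      exact absurd ((e r).2 r1.le) r2.not_ge

theorem emb {T : GI} (hA : PA T) : ∃ φ : ℝ → GI, Continuous φ ∧
    (∀ s t, ⇑(φ (s + t)).1 =ᵐ[volume] (φ s).1 ∘ (φ t).1) ∧ ⇑(φ 1).1 =ᵐ[volume] T.1 := by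
  obtain ⟨ε1, h1⟩ := exists_rat_gt (rho 0 (T ^ 1) 1)
  obtain ⟨K, w, K0, a1, a2, -⟩ := hA 0 1 1 1 ε1 1 1 one_pos one_pos h1 (by simp [rho_self])
  obtain ⟨φ, f0, f1, f2, -⟩ := flow hA 1 1 (1 * K) w (by positivity) a1 a2
  exact ⟨φ, f0, f1, by rwa [pow_one] at f2⟩

@[reducible] noncomputable def pm (k : ℕ) : PseudoMetricSpace GI where
  dist S T := rho k S T + rho k S⁻¹ T⁻¹
  dist_self S := by simp [rho_self]
  dist_comm S T := by rw [rho_comm, rho_comm k S⁻¹]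
  dist_triangle S T R := by
    show rho k S R + rho k S⁻¹ R⁻¹ ≤ rho k S T + rho k S⁻¹ T⁻¹ + (rho k T R + rho k T⁻¹ R⁻¹)
    linarith [rho_tri k S T R, rho_tri k S⁻¹ T⁻¹ R⁻¹]

instance : BaireSpace GI := by
  let u : UniformSpace GI := ⨅ k, (pm k).toUniformSpace
  have a {ι : Type} {l : Filter ι} {F : ι → GI} {S : GI} :
      Tendsto F l (@nhds GI u.toTopologicalSpace S) ↔ Tendsto F l (@nhds GI tI S) := by
    rw [UniformSpace.toTopologicalSpace_iInf, nhds_iInf, tendsto_iInf]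
    simp only [fun k => @tendsto_iff_dist_tendsto_zero GI ι (pm k)]
    refine ⟨fun h => rho_tend.2 fun k => squeeze_zero (fun _ => rho0 _ _ _)
      (fun i => le_add_of_nonneg_right (rho0 _ _ _)) (h k), fun h k => ?_⟩
    have := (rho_tend.1 h k).add (rho_tend.1 h.inv k)
    rwa [add_zero] at this
  have e : tI = u.toTopologicalSpace := TopologicalSpace.ext_nhds fun S =>
    le_antisymm (a.2 tendsto_id) (a.1 tendsto_id)
  have : (@uniformity GI u).IsCountablyGenerated := by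
    rw [iInf_uniformity]
    exact @Filter.iInf.isCountablyGenerated _ _ _ _ fun k => by let _ := pm k; infer_instance
  have : @CompleteSpace GI u := UniformSpace.complete_of_convergent_controlled_sequences
    (fun k => {p | @dist GI (pm k).toDist p.1 p.2 < 1 / 2 ^ k}) (fun k => by
      rw [iInf_uniformity]
      exact mem_iInf_of_mem k (@Metric.dist_mem_uniformity GI (pm k) _ (by positivity)))
    fun F h => by
      obtain ⟨S, hS⟩ := lim1 (F := F) (k0 := 0) (C := 1) (fun m => by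
        rw [zero_add]
        exact (le_add_of_nonneg_right (rho0 _ _ _)).trans (h m _ _ m.le_succ le_rfl).le) fun m => by
        rw [zero_add]
        exact (le_add_of_nonneg_left (rho0 _ _ _)).trans (h m _ _ m.le_succ le_rfl).le
      exact ⟨S, a.2 hS⟩
  rw [e]
  exact @BaireSpace.of_completelyPseudoMetrizable GI u.toTopologicalSpace inferInstance

end Pool.Agent.H.MP_ba7837_an
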